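import Pool.Agent.Work.MP_fe875b_lc.SY.RedC
import Pool.Agent.Work.MP_fe875b_lc.Circ.Wfa

/-!
MP_fe875b_lc, SY/WfaC: every work function algorithm (any tie-breaking, lazy or not; `IsWFA` of Circ/Wfa, work function = infimum of the
costs of all schedules) is `k`-competitive on every metric space, with half the sum of all distances inside the start configuration as
additive constant.
-/

set_option autoImplicit false

namespace Pool.Agent.KServer

open Finset

theorem wfa_k {M : Type} {k : ℕ} (hk : 0 < k) {D : M → M → ℝ} (hD : Metr D) (c₀ : Fin k → M)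
    (C : List M → Fin k → M) (hC : IsWFA D c₀ C) (σ : List M) (S : ℕ → Fin k → M)
    (hS : Serves c₀ σ S) :
    algCost D C σ ≤ (k : ℝ) * schedCost D S σ.length + (∑ i, ∑ j, D (c₀ i) (c₀ j)) / 2 := by
  classical
  let F : Finset M := univ.image c₀ ∪ σ.toFinset ∪ univ.image (S σ.length) ∪
    ((range (σ.length + 1)) ×ˢ (univ : Finset (Fin k))).image (fun p => C (σ.take p.1) p.2)
  have hcF : ∀ i, c₀ i ∈ F := fun i =>
    mem_union_left _ (mem_union_left _ (mem_union_left _ (mem_image_of_mem _ (mem_univ i))))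
  have hσF : ∀ x ∈ σ, x ∈ F := fun x hx =>
    mem_union_left _ (mem_union_left _ (mem_union_right _ (List.mem_toFinset.2 hx)))
  have hSF : ∀ i, S σ.length i ∈ F := fun i =>
    mem_union_left _ (mem_union_right _ (mem_image_of_mem _ (mem_univ i)))
  have hCF : ∀ (τ : List M), τ <+: σ → ∀ i, C τ i ∈ F := by
    intro τ hτ i
    refine mem_union_right _ (mem_image.2 ⟨(τ.length, i), ?_, ?_⟩)
    · exact mem_product.2 ⟨mem_range.2 (Nat.lt_succ_of_le hτ.length_le), mem_univ _⟩
    · show C (σ.take τ.length) i = C τ i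
      rw [← List.prefix_iff_eq_take.1 hτ]
  obtain ⟨Ψ, h1, h2, h0⟩ := fin_pot hk hD c₀ F hcF
  have h3 := wfa_bound hk hD hC Ψ σ (by
    intro τ r hτ
    have hτ' : τ <+: σ := (List.prefix_append _ _).trans hτ
    exact h1 τ r (C τ) (fun x hx => hσF x (hτ'.subset hx)) (hσF r (hτ.subset (by simp)))
      (hCF τ hτ'))
  have h4 := wf_le_sched hk hD c₀ σ S hS
  have hk0 : (0 : ℝ) ≤ (k : ℝ) := Nat.cast_nonneg k
  have h5 := mul_le_mul_of_nonneg_left h4 hk0
  rcases le_total (wf D c₀ σ (C σ)) (wf D c₀ σ (S σ.length)) with h6 | h6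
  · have h7 := h2 σ (C σ) hσF (hCF σ (List.prefix_refl _))
    have h8 := mul_le_mul_of_nonneg_left h6 hk0
    linarith
  · have h7 := h2 σ (S σ.length) hσF hSF
    linarith

/-- Every work function algorithm is `k`-competitive on every metric space, with the additive constant
`∑_{i<j} dist (c₀ i) (c₀ j)`. -/
theorem wfa_competitive (M : Type) [MetricSpace M] (k : ℕ) (hk : 0 < k) (c₀ : Fin k → M) :
    (∃ C : List M → Fin k → M, IsWFA (dist : M → M → ℝ) c₀ C) ∧
    ∀ C : List M → Fin k → M, IsWFA (dist : M → M → ℝ) c₀ C → Online c₀ C ∧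
      ∀ (σ : List M) (S : ℕ → Fin k → M), Serves c₀ σ S →
        algCost (dist : M → M → ℝ) C σ ≤ (k : ℝ) * schedCost (dist : M → M → ℝ) S σ.length +
          (∑ i, ∑ j, dist (c₀ i) (c₀ j)) / 2 := by
  have hM : Metr (dist : M → M → ℝ) := ⟨isDist_dist M, dist_comm⟩
  exact ⟨exists_isWFA hk hM c₀, fun C hC => ⟨online_of_isWFA hC, fun σ S hS =>
    wfa_k hk hM c₀ C hC σ S hS⟩⟩

end Pool.Agent.KServer
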