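import Pool.Agent.Work.MP_fe875b_lc.SY.Pot

/-!
MP_fe875b_lc, SY/Main: the k-server conjecture (assembly).
-/

set_option autoImplicit false

namespace Pool.Agent.KServer.SY

/-- The deterministic k-server conjecture. -/
theorem kserver :
  ∀ (M : Type) [MetricSpace M] (k : ℕ), 0 < k → ∀ c₀ : Fin k → M,
    ∃ C : List M → (Fin k → M),
      C [] = c₀ ∧
      (∀ (l : List M) (r : M), ∃ i : Fin k, C (l ++ [r]) i = r) ∧
      ∃ α : ℝ, ∀ (σ : List M) (S : ℕ → Fin k → M),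
        S 0 = c₀ →
        (∀ j : Fin σ.length, ∃ i : Fin k, S (j.val + 1) i = σ.get j) →
        (∑ j ∈ Finset.range σ.length, ∑ i : Fin k,
            dist (C (σ.take j) i) (C (σ.take (j + 1)) i))
          ≤ (k : ℝ) * (∑ j ∈ Finset.range σ.length, ∑ i : Fin k,
            dist (S j i) (S (j + 1) i)) + α := by
  intro M _ k hk c₀
  obtain ⟨n, rfl⟩ : ∃ n, k = n + 1 := ⟨k - 1, by omega⟩
  obtain ⟨b, C, hC, hcomp⟩ := all_of_pot (k := n + 1) hk (c := ((n + 1 : ℕ) : ℝ))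
    (Nat.cast_nonneg _) (fun V _ D anti Δ v hD hai ha => has_pot n V D anti Δ v hD hai ha) M c₀
  exact ⟨C, hC.1, hC.2, b, fun σ S h1 h2 => hcomp σ S ⟨h1, h2⟩⟩

end Pool.Agent.KServer.SY
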