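import Pool.Agent.Work.MP_fe875b_lc.SY.Defs

/-!
MP_fe875b_lc, SY/Avo (size M): generic rational coefficients.

For finitely many families `b j : Λ → K` there are rational coefficients `c` such that no cancellation occurs in any of the sums
`∑ l, c l * b j l`. Proof. `≥` always holds (ultrametric inequality, valuation of rational constants is ≥ 0). For every `j` let
`m_j = inf_l v (b j l)`. If `m_j = ⊤` all `b j l = 0` and there is nothing to prove. Otherwise
`W_j = {c : Λ → ℚ | m_j < v (∑ l, c l * b j l)}` is a `ℚ`-subspace of `Λ → ℚ` (closed under sums by `AddValuation.map_add`, under scalars because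
`v (algebraMap c) ≥ 0`; `0 ∈ W_j` because `m_j < ⊤`), and `W_j ≠ ⊤`: `Pi.single l 1` for an `l` with `v (b j l) = m_j` is not in it. A vector space over the
infinite field `ℚ` is not a finite union of proper subspaces: `Subspace.biUnion_ne_univ_of_top_notMem` (or `..._nmem`, file
Mathlib/GroupTheory/CosetCover.lean). Any `c` outside works.
-/

set_option autoImplicit false

namespace Pool.Agent.KServer.SY

private theorem avo_const {K : Type} [Field K] [Algebra ℚ K] (F : VF K) (c : ℚ) (x : K) :
    F.v x ≤ F.v (algebraMap ℚ K c * x) := by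
  rw [AddValuation.map_mul]
  by_cases hc : c = 0
  · subst hc
    rw [map_zero, AddValuation.map_zero, top_add]
    exact le_top
  · rw [F.hq c hc, zero_add]

private def avoW {K : Type} [Field K] [Algebra ℚ K] (F : VF K) {Λ : Type} [Fintype Λ]
    (b : Λ → K) (g : WithTop ℝ) (hg : g < ⊤) : Submodule ℚ (Λ → ℚ) where
  carrier := {c | g < F.v (∑ l, algebraMap ℚ K (c l) * b l)}
  zero_mem' := by
    show g < F.v (∑ l, algebraMap ℚ K ((0 : Λ → ℚ) l) * b l)
    have h : (∑ l, algebraMap ℚ K ((0 : Λ → ℚ) l) * b l) = 0 :=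
      Finset.sum_eq_zero fun l _ => by rw [Pi.zero_apply, map_zero, zero_mul]
    rw [h, AddValuation.map_zero]
    exact hg
  add_mem' := by
    intro c c' hc hc'
    show g < F.v (∑ l, algebraMap ℚ K ((c + c') l) * b l)
    have h : (∑ l, algebraMap ℚ K ((c + c') l) * b l) =
        (∑ l, algebraMap ℚ K (c l) * b l) + ∑ l, algebraMap ℚ K (c' l) * b l := by
      rw [← Finset.sum_add_distrib]
      exact Finset.sum_congr rfl fun l _ => by rw [Pi.add_apply, map_add, add_mul]
    rw [h]
    exact AddValuation.map_lt_add _ hc hc'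
  smul_mem' := by
    intro q c hc
    show g < F.v (∑ l, algebraMap ℚ K ((q • c) l) * b l)
    have h : (∑ l, algebraMap ℚ K ((q • c) l) * b l) =
        algebraMap ℚ K q * ∑ l, algebraMap ℚ K (c l) * b l := by
      rw [Finset.mul_sum]
      exact Finset.sum_congr rfl fun l _ => by
        rw [Pi.smul_apply, smul_eq_mul, map_mul, mul_assoc]
    rw [h]
    exact lt_of_lt_of_le hc (avo_const F q _)

theorem avoid {K : Type} [Field K] [Algebra ℚ K] (F : VF K) {Λ J : Type} [Fintype Λ] [Finite J]
    (b : J → Λ → K) : ∃ c : Λ → ℚ, ∀ j,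
      F.v (∑ l, algebraMap ℚ K (c l) * b j l) = Finset.univ.inf fun l => F.v (b j l) := by
  classical
  have hle : ∀ (c : Λ → ℚ) (j : J), (Finset.univ.inf fun l => F.v (b j l)) ≤
      F.v (∑ l, algebraMap ℚ K (c l) * b j l) := fun c j =>
    AddValuation.map_le_sum _ fun l hl => (Finset.inf_le hl).trans (avo_const F _ _)
  by_contra hcon
  push Not at hcon
  let p : {j : J // (Finset.univ.inf fun l => F.v (b j l)) < ⊤} → Submodule ℚ (Λ → ℚ) :=
    fun j => avoW F (b j.1) _ j.2
  have hcov : (⋃ i, (p i : Set (Λ → ℚ))) = Set.univ := by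
    refine Set.eq_univ_of_forall fun c => ?_
    obtain ⟨j, hj⟩ := hcon c
    have h1 : (Finset.univ.inf fun l => F.v (b j l)) <
        F.v (∑ l, algebraMap ℚ K (c l) * b j l) := lt_of_le_of_ne (hle c j) (Ne.symm hj)
    exact Set.mem_iUnion.2 ⟨⟨j, lt_of_lt_of_le h1 le_top⟩, h1⟩
  obtain ⟨⟨j, hj⟩, htop⟩ := Subspace.exists_eq_top_of_iUnion_eq_univ hcov
  have hne : (Finset.univ : Finset Λ).Nonempty := by
    by_contra h0
    rw [Finset.not_nonempty_iff_eq_empty] at h0
    rw [h0, Finset.inf_empty] at hj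
    exact lt_irrefl _ hj
  obtain ⟨l, -, hl⟩ := Finset.exists_mem_eq_inf Finset.univ hne fun l => F.v (b j l)
  have h1 : (Pi.single l 1 : Λ → ℚ) ∈ p ⟨j, hj⟩ := by
    rw [htop]
    exact Submodule.mem_top
  have h2 : (Finset.univ.inf fun l => F.v (b j l)) <
      F.v (∑ l', algebraMap ℚ K ((Pi.single l 1 : Λ → ℚ) l') * b j l') := h1
  have h3 : (∑ l', algebraMap ℚ K ((Pi.single l 1 : Λ → ℚ) l') * b j l') = b j l := by
    rw [Finset.sum_eq_single l]
    · rw [Pi.single_eq_same, map_one, one_mul]
    · intro l' _ hne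
      rw [Pi.single_eq_of_ne hne, map_zero, zero_mul]
    · intro h
      exact absurd (Finset.mem_univ l) h
  rw [h3, hl] at h2
  exact lt_irrefl _ h2

end Pool.Agent.KServer.SY
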