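import Pool.Agent.Work.MP_fe875b_lc.SY.Defs

/-!
MP_fe875b_lc, SY/Bas (size S-M): lower bound for the potential of the initial state.

All entries of the matrix of `sdet` have valuation `≥ Δ`: `x_i * X_j + x_j * X_i` with `v x_i ≥ d x`, `v X_j ≥ d (anti x)`, `d x + d (anti x) = Δ`.
Leibniz formula (`Matrix.det_apply`, ultrametric inequality, `v (sign) = 0`): the determinant has valuation `≥ N * Δ`, `N = card (Sym2 (Fin k)) = k (k + 1) / 2`
(`Sym2.card`: `(card + 1).choose 2`, `Nat.choose_two_right`). `κ = 1`.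
-/

set_option autoImplicit false

namespace Pool.Agent.KServer.SY

private theorem v_prod_ge {K : Type} [Field K] (v : AddValuation K (WithTop ℝ)) {ι : Type}
    (Δ : ℝ) (f : ι → K) (s : Finset ι) (hf : ∀ i ∈ s, (Δ : WithTop ℝ) ≤ v (f i)) :
    (((s.card : ℝ) * Δ : ℝ) : WithTop ℝ) ≤ v (∏ i ∈ s, f i) := by
  classical
  induction s using Finset.induction_on with
  | empty => simp
  | insert a s ha ih =>
    rw [Finset.prod_insert ha, Finset.card_insert_of_notMem ha, AddValuation.map_mul]
    have h1 := hf a (Finset.mem_insert_self a s)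
    have h2 := ih fun i hi => hf i (Finset.mem_insert_of_mem hi)
    have h3 : ((((s.card + 1 : ℕ) : ℝ) * Δ : ℝ) : WithTop ℝ) =
        (Δ : WithTop ℝ) + (((s.card : ℝ) * Δ : ℝ) : WithTop ℝ) := by
      rw [← WithTop.coe_add]
      congr 1
      push_cast
      ring
    rw [h3]
    exact add_le_add h1 h2

theorem pot_init {K : Type} [Field K] [Algebra ℚ K] (F : VF K) {V : Type} [Fintype V] {k m : ℕ}
    (d : V → ℝ) (anti : V → V) (Δ : ℝ) (hd : ∀ x, d x + d (anti x) = Δ)
    (vec : V × Fin m → Fin k → K)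
    (h : ∀ (l : V × Fin m) (j : Fin k), ((d l.1 : ℝ) : WithTop ℝ) ≤ F.v (vec l j)) :
    (((k : ℝ) * (k + 1) / 2 * Δ : ℝ) : WithTop ℝ) ≤ pot F anti vec 1 := by
  classical
  apply le_pot
  intro G
  rw [one_pow, one_mul]
  have hcard : ((Fintype.card (Sym2 (Fin k)) : ℕ) : ℝ) = (k : ℝ) * (k + 1) / 2 := by
    rw [Sym2.card, Fintype.card_fin, Nat.cast_choose_two]
    push_cast
    ring
  have hent : ∀ f t : Sym2 (Fin k), (Δ : WithTop ℝ) ≤
      F.v (sprod (vec ((G f).1, (G f).2.1)) (vec (anti (G f).1, (G f).2.2)) t) := by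
    intro f t
    induction t with
    | _ i j =>
      rw [sprod_mk]
      have hΔ : (Δ : WithTop ℝ) = ((d (G f).1 : ℝ) : WithTop ℝ) +
          ((d (anti (G f).1) : ℝ) : WithTop ℝ) := by
        rw [← WithTop.coe_add, hd]
      apply AddValuation.map_le_add
      · rw [AddValuation.map_mul, hΔ]
        exact add_le_add (h _ i) (h _ j)
      · rw [AddValuation.map_mul, hΔ]
        exact add_le_add (h _ j) (h _ i)
  unfold sdet
  rw [Matrix.det_apply]
  apply AddValuation.map_le_sum
  intro σ _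
  have h1 : (((k : ℝ) * (k + 1) / 2 * Δ : ℝ) : WithTop ℝ) ≤
      F.v (∏ i, (Matrix.of fun f => sprod (vec ((G f).1, (G f).2.1))
        (vec (anti (G f).1, (G f).2.2))) (σ i) i) := by
    have h2 := v_prod_ge F.v Δ (fun i => (Matrix.of fun f => sprod (vec ((G f).1, (G f).2.1))
        (vec (anti (G f).1, (G f).2.2))) (σ i) i) Finset.univ (fun i _ => hent (σ i) i)
    rw [Finset.card_univ, hcard] at h2
    exact h2
  rcases Int.units_eq_one_or (Equiv.Perm.sign σ) with hs | hs
  · rw [hs, one_smul]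
    exact h1
  · rw [hs, Units.neg_smul, one_smul, AddValuation.map_neg]
    exact h1

end Pool.Agent.KServer.SY
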