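import Pool.Agent.Work.MP_fe875b_lc.SY.Defs

/-!
MP_fe875b_lc, SY/BasC (size M): lower bound for the potential of the initial state, arbitrary start.

The entry of the matrix of `sdet` in the column `s(i,j)` is `x_i * X_j + x_j * X_i`, of valuation `≥ min (d i x + d j (anti x)) (d j x + d i (anti x)) ≥ Δ - δ i j`
(`d j (anti x) = Δ - d j x`, `|d i x - d j x| ≤ δ i j`). Leibniz formula: the determinant has valuation `≥ ∑ over s(i,j) ∈ Sym2 (Fin k) of (Δ - δ i j)`
`= k (k + 1) / 2 * Δ - (∑ i, ∑ j, δ i j) / 2` (`δ` symmetric, `δ i i = 0`; `Sym2.card`; for the sum of a symmetric function over `Sym2`: `Finset.sum_sym2`-like lemmas or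
`∑ (i,j), f s(i,j) = ∑ z, (number of pairs over z) * f z`, 2 for non-diagonal and 1 for diagonal `z`).
-/

set_option autoImplicit false

namespace Pool.Agent.KServer.SY

open Finset

private theorem sum_sym2_eq {k : ℕ} (f : Sym2 (Fin k) → ℝ) :
    ∑ z, f z = ((∑ i, ∑ j, f s(i, j)) + ∑ i, f s(i, i)) / 2 := by
  classical
  have h1 : ∑ z, f z = ∑ i, ∑ j, if i ≤ j then f s(i, j) else 0 := by
    have e1 : ∑ z, f z = ∑ p : {p : Fin k × Fin k // p.1 ≤ p.2}, f s(p.1.1, p.1.2) :=
      (Equiv.sum_comp (Sym2.sortEquiv (α := Fin k)).symm f).symm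
    have e2 : ∑ p : {p : Fin k × Fin k // p.1 ≤ p.2}, f s(p.1.1, p.1.2) =
        ∑ p ∈ (Finset.univ : Finset (Fin k × Fin k)).filter (fun p => p.1 ≤ p.2),
          f s(p.1, p.2) :=
      (Finset.sum_subtype _ (fun p => by simp) (fun p : Fin k × Fin k => f s(p.1, p.2))).symm
    rw [e1, e2, Finset.sum_filter, Fintype.sum_prod_type]
  have h2 : ∑ i, ∑ j, (if i ≤ j then f s(i, j) else 0) =
      (∑ i, ∑ j, if i < j then f s(i, j) else 0) + ∑ i, f s(i, i) := by
    rw [← Finset.sum_add_distrib]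
    refine Finset.sum_congr rfl fun i _ => ?_
    have h3 : f s(i, i) = ∑ j, if i = j then f s(i, j) else 0 := by simp
    rw [h3, ← Finset.sum_add_distrib]
    refine Finset.sum_congr rfl fun j _ => ?_
    rcases lt_trichotomy i j with h | h | h
    · simp [h, h.le, h.ne]
    · simp [h]
    · simp [h.not_gt, h.not_ge, h.ne']
  have h4 : ∑ i, ∑ j, f s(i, j) = (∑ i, ∑ j, if i ≤ j then f s(i, j) else 0) +
      ∑ i, ∑ j, if i < j then f s(i, j) else 0 := by
    have h5 : (∑ i, ∑ j, if i < j then f s(i, j) else 0) =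
        ∑ i, ∑ j, if j < i then f s(i, j) else 0 := by
      rw [Finset.sum_comm]
      refine Finset.sum_congr rfl fun i _ => Finset.sum_congr rfl fun j _ => ?_
      rw [Sym2.eq_swap]
    rw [h5, ← Finset.sum_add_distrib]
    refine Finset.sum_congr rfl fun i _ => ?_
    rw [← Finset.sum_add_distrib]
    refine Finset.sum_congr rfl fun j _ => ?_
    rcases lt_or_ge j i with h | h
    · simp [h, h.not_ge]
    · simp [h, h.not_gt]
  rw [h1]
  linarith

private theorem le_val_prod {K : Type} [Field K] (v : AddValuation K (WithTop ℝ)) {ι : Type*}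
    (s : Finset ι) (c : ι → ℝ) (f : ι → K) (h : ∀ i ∈ s, ((c i : ℝ) : WithTop ℝ) ≤ v (f i)) :
    ((∑ i ∈ s, c i : ℝ) : WithTop ℝ) ≤ v (∏ i ∈ s, f i) := by
  classical
  induction s using Finset.induction_on with
  | empty => simp
  | insert a s ha ih =>
    rw [Finset.sum_insert ha, Finset.prod_insert ha, AddValuation.map_mul, WithTop.coe_add]
    exact add_le_add (h a (Finset.mem_insert_self _ _))
      (ih fun i hi => h i (Finset.mem_insert_of_mem hi))

private theorem le_val_det {K : Type} [Field K] (v : AddValuation K (WithTop ℝ)) {ι : Type*}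
    [Fintype ι] [DecidableEq ι] (c : ι → ℝ) (M : Matrix ι ι K)
    (h : ∀ i j, ((c j : ℝ) : WithTop ℝ) ≤ v (M i j)) :
    ((∑ j, c j : ℝ) : WithTop ℝ) ≤ v M.det := by
  rw [Matrix.det_apply]
  refine AddValuation.map_le_sum v fun σ _ => ?_
  have h1 : ((∑ j, c j : ℝ) : WithTop ℝ) ≤ v (∏ i, M (σ i) i) :=
    le_val_prod v _ _ _ fun i _ => h (σ i) i
  rcases Int.units_eq_one_or (Equiv.Perm.sign σ) with h2 | h2
  · rw [h2, one_smul]; exact h1
  · rw [h2, Units.neg_smul, one_smul, AddValuation.map_neg]; exact h1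

theorem pot_initC {K : Type} [Field K] [Algebra ℚ K] (F : VF K) {V : Type} [Fintype V] {k m : ℕ}
    (d : Fin k → V → ℝ) (anti : V → V) (Δ : ℝ) (hd : ∀ i x, d i x + d i (anti x) = Δ)
    (δ : Fin k → Fin k → ℝ) (h0 : ∀ i, δ i i = 0) (hs : ∀ i j, δ i j = δ j i)
    (hδ : ∀ i j x, d i x ≤ d j x + δ i j)
    (vec : V × Fin m → Fin k → K)
    (h : ∀ (l : V × Fin m) (j : Fin k), ((d j l.1 : ℝ) : WithTop ℝ) ≤ F.v (vec l j)) :
    (((k : ℝ) * (k + 1) / 2 * Δ - (∑ i, ∑ j, δ i j) / 2 : ℝ) : WithTop ℝ) ≤ pot F anti vec 1 := by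
  classical
  refine le_pot F anti vec 1 _ fun G => ?_
  rw [one_pow, one_mul]
  set c : Sym2 (Fin k) → ℝ := Sym2.lift ⟨fun i j => Δ - δ i j, fun i j => by simp only [hs i j]⟩ with hc
  have hcs : ∀ i j, c s(i, j) = Δ - δ i j := fun i j => rfl
  have hsum : (k : ℝ) * (k + 1) / 2 * Δ - (∑ i, ∑ j, δ i j) / 2 = ∑ z, c z := by
    rw [sum_sym2_eq]
    simp only [hcs, h0, sub_zero, Finset.sum_sub_distrib, Finset.sum_const, Finset.card_univ,
      Fintype.card_fin, nsmul_eq_mul]
    ring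
  rw [hsum]
  refine le_val_det F.v c _ fun f z => ?_
  induction z with
  | _ i j =>
    rw [Matrix.of_apply, sprod_mk, hcs]
    have key : ∀ a b : Fin k, Δ - δ i j ≤ d a (G f).1 + d b (anti (G f).1) →
        ((Δ - δ i j : ℝ) : WithTop ℝ) ≤ F.v (vec ((G f).1, (G f).2.1) a *
          vec (anti (G f).1, (G f).2.2) b) := by
      intro a b hab
      rw [AddValuation.map_mul]
      refine le_trans ?_ (add_le_add (h ((G f).1, (G f).2.1) a) (h (anti (G f).1, (G f).2.2) b))
      rw [← WithTop.coe_add]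
      exact WithTop.coe_le_coe.2 hab
    refine AddValuation.map_le_add F.v (key i j ?_) (key j i ?_)
    · have h1 := hd j (G f).1
      have h2 := hδ j i (G f).1
      rw [hs j i] at h2
      linarith
    · have h1 := hd i (G f).1
      have h2 := hδ i j (G f).1
      linarith

end Pool.Agent.KServer.SY
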