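import Pool.Agent.Work.MP_fe875b_lc.SY.Defs

/-!
MP_fe875b_lc, SY/Blk (size M): valuation form of the Laplace expansion along two column blocks.

Columns are indexed by `R1 ⊕ R2`, rows by `J ≃ R1 ⊕ R2` (here `J = R1 ⊕ R2` too). Write every row as the sum of its `R1` part and its `R2` part
(zero in the other columns); expand the determinant by multilinearity in the rows (`Matrix.detRowAlternating`, `MultilinearMap.map_add_univ`:
`f (x + y) = ∑ s, f (s.piecewise x y)`). It is enough (ultrametric inequality for sums) to bound the term `det (M_s)`, where `M_s` has the `R1` part in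
the rows of `s` and the `R2` part in the other rows. If there is a permutation `σ` of `R1 ⊕ R2` with `(σ j) ∈ R1 ↔ j ∈ s` (row `j` goes to column `σ j`), let `e = σ⁻¹`: the
matrix `M_s.submatrix e id` is `fromBlocks A 0 0 D` with `A = M.submatrix (e ∘ inl) inl`, `D = M.submatrix (e ∘ inr) inr`
so `det M_s = ± det A * det D` (`Matrix.det_permute`, `Matrix.det_fromBlocks_zero₂₁`), valuation `≥ a + b`. If there is no such permutation every term of the
Leibniz formula is zero (a nonzero product `∏ M_s j (σ j)` or `∏ M_s (σ j) j` gives such a permutation), so `det M_s = 0`.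
-/

set_option autoImplicit false

namespace Pool.Agent.KServer.SY

private theorem val_sign_mul {K : Type} [Field K] (v : AddValuation K (WithTop ℝ)) (u : ℤˣ)
    (x : K) : v (((u : ℤ) : K) * x) = v x := by
  rcases Int.units_eq_one_or u with h | h
  · rw [h]; simp
  · rw [h]; simp [AddValuation.map_neg]

private theorem val_det_part {K : Type} [Field K] (v : AddValuation K (WithTop ℝ)) {R1 R2 : Type}
    [Fintype R1] [Fintype R2] [DecidableEq R1] [DecidableEq R2]
    (M : Matrix (R1 ⊕ R2) (R1 ⊕ R2) K) (a b : WithTop ℝ)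
    (ha : ∀ f : R1 → R1 ⊕ R2, a ≤ v (M.submatrix f Sum.inl).det)
    (hb : ∀ f : R2 → R1 ⊕ R2, b ≤ v (M.submatrix f Sum.inr).det)
    (N : Matrix (R1 ⊕ R2) (R1 ⊕ R2) K) (s : Finset (R1 ⊕ R2))
    (hN : ∀ j c, N j c = if (j ∈ s ↔ c.isLeft = true) then M j c else 0) :
    a + b ≤ v N.det := by
  classical
  by_cases h : ∃ σ : Equiv.Perm (R1 ⊕ R2), ∀ j, ((σ j).isLeft = true ↔ j ∈ s)
  · obtain ⟨σ, hσ⟩ := h
    set e : Equiv.Perm (R1 ⊕ R2) := σ.symm with he
    have hes : ∀ i, (e i ∈ s ↔ i.isLeft = true) := by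
      intro i
      rw [← hσ (e i), he, Equiv.apply_symm_apply]
    have h1 : N.submatrix e id = Matrix.fromBlocks (M.submatrix (e ∘ Sum.inl) Sum.inl) 0 0
        (M.submatrix (e ∘ Sum.inr) Sum.inr) := by
      refine Matrix.ext fun i c => ?_
      rcases i with i | i <;> rcases c with c | c <;> simp [hN, hes]
    have h2 := Matrix.det_permute e N
    rw [h1, Matrix.det_fromBlocks_zero₂₁] at h2
    have h3 : v N.det = v ((M.submatrix (e ∘ Sum.inl) Sum.inl).det *
        (M.submatrix (e ∘ Sum.inr) Sum.inr).det) := by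
      rw [h2, val_sign_mul]
    rw [h3, AddValuation.map_mul]
    exact add_le_add (ha _) (hb _)
  · have h0 : N.det = 0 := by
      rw [Matrix.det_apply]
      refine Finset.sum_eq_zero fun σ _ => ?_
      by_contra hne
      apply h
      refine ⟨σ.symm, fun j => ?_⟩
      have h1 : ∏ i, N (σ i) i ≠ 0 := fun h0 => hne (by rw [h0, smul_zero])
      rw [Finset.prod_ne_zero_iff] at h1
      have h2 := h1 (σ.symm j) (Finset.mem_univ _)
      rw [Equiv.apply_symm_apply, hN] at h2
      by_contra h3
      exact h2 (if_neg fun h4 => h3 h4.symm)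
    rw [h0, AddValuation.map_zero]
    exact le_top

theorem val_det_blocks {K : Type} [Field K] (v : AddValuation K (WithTop ℝ)) {R1 R2 : Type}
    [Fintype R1] [Fintype R2] [DecidableEq R1] [DecidableEq R2]
    (M : Matrix (R1 ⊕ R2) (R1 ⊕ R2) K) (a b : WithTop ℝ)
    (ha : ∀ f : R1 → R1 ⊕ R2, a ≤ v (M.submatrix f Sum.inl).det)
    (hb : ∀ f : R2 → R1 ⊕ R2, b ≤ v (M.submatrix f Sum.inr).det) :
    a + b ≤ v M.det := by
  classical
  set P : R1 ⊕ R2 → R1 ⊕ R2 → K := fun j c => if c.isLeft = true then M j c else 0 with hP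
  set Q : R1 ⊕ R2 → R1 ⊕ R2 → K := fun j c => if c.isLeft = true then 0 else M j c with hQ
  have hM : (M : R1 ⊕ R2 → R1 ⊕ R2 → K) = P + Q := by
    funext j c
    simp only [hP, hQ, Pi.add_apply]
    split_ifs <;> simp
  have hdet : M.det = ∑ s : Finset (R1 ⊕ R2), Matrix.det (Matrix.of (s.piecewise P Q)) := by
    have h := (Matrix.detRowAlternating (R := K) (n := R1 ⊕ R2)).toMultilinearMap.map_add_univ P Q
    rw [← hM] at h
    exact h
  rw [hdet]
  refine AddValuation.map_le_sum v fun s _ => ?_
  refine val_det_part v M a b ha hb _ s fun j c => ?_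
  show s.piecewise P Q j c = _
  by_cases hj : j ∈ s
  · rw [Finset.piecewise_eq_of_mem _ _ _ hj]
    simp [hP, hj]
  · rw [Finset.piecewise_eq_of_notMem _ _ _ hj]
    by_cases hc : c.isLeft = true
    · simp [hQ, hj, hc]
    · simp [hQ, hj, hc]

end Pool.Agent.KServer.SY
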