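import Pool.Agent.Work.MP_fe875b_lc.SY.Defs

/-!
MP_fe875b_lc, SY/SyE (size M-L): elimination identity in the symmetric square. Pure linear algebra over a field.

The family indexed by `Sym2 (Fin (n+1)) ≃ Sym2 (Fin n) ⊕ Fin (n+1)` (`ep p`) consists of the products `x g * y g`, `g ∈ Sym2 (Fin n)`, and of the products `r * R i`, `i ∈ Fin (n+1)`.
Claim: its determinant is `2 * (r p)^(n+1) * br R * sdet (el x) (el y)`.

Proof. Reindex rows and columns by `ep p` (`Matrix.det_submatrix_equiv_self`): `M = fromBlocks M11 M12 M21 M22`, rows: the two parts of the family; columns: `Sym2.map p.succAbove s`,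
resp. `s(p,i)`. So `M11 g s(a,b) = x_a' y_b' + x_b' y_a'` (`a' = p.succAbove a`), `M12 g i = x_p y_i + x_i y_p`, `M22 j i = r_p (R_j)_i + r_i (R_j)_p`.
Multiply on the right by `fromBlocks 1 0 A 1` (determinant 1, `Matrix.det_fromBlocks_zero₁₂`), `A : Matrix (Fin (n+1)) (Sym2 (Fin n))`, where, with `t_a = r_a' / r_p`,
`A i s(a,b) = - t_a [i = b'] - t_b [i = a'] + t_a t_b [i = p]` (define it with `Sym2.lift`). Then the column `s(a,b)` becomes (row = product `x * y`)
`(x_a' y_b' + x_b' y_a') - t_a (x_p y_b' + x_b' y_p) - t_b (x_p y_a' + x_a' y_p) + t_a t_b (2 x_p y_p)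
 = (x_a' - t_a x_p)(y_b' - t_b y_p) + (x_b' - t_b x_p)(y_a' - t_a y_p) = sprod (el r p x) (el r p y) s(a,b)`,
in particular it is 0 for `x = r` (`el r p r = 0`). So the determinant is `det (sprod (el x) (el y)) * det M22`. Finally `M22 = R * H`, `H l i = r_p [l = i] + r_i [l = p]`:
`det H = 2 r_p^(n+1)`: `H = r_p • 1 + (column e_p) * (row r)` (matrix determinant lemma `Matrix.det_add_replicateCol_mul_replicateRow` or: only the row `p` differs from `r_p • 1`:
`H = (r_p • 1).updateRow p (r + r_p e_p)`, expand: `Matrix.det_updateRow_add`, ...).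
-/

set_option autoImplicit false

namespace Pool.Agent.KServer.SY

variable {K : Type} [Field K]

/-- the column operations -/
private def elA {n : ℕ} (r : Fin (n + 1) → K) (p : Fin (n + 1)) :
    Matrix (Fin (n + 1)) (Sym2 (Fin n)) K :=
  Matrix.of fun i => Sym2.lift ⟨fun a b =>
    -(r (p.succAbove a) / r p) * (if i = p.succAbove b then 1 else 0) -
      (r (p.succAbove b) / r p) * (if i = p.succAbove a then 1 else 0) +
      (r (p.succAbove a) / r p) * (r (p.succAbove b) / r p) * (if i = p then 1 else 0),
    fun a b => by ring⟩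

private theorem elA_mk {n : ℕ} (r : Fin (n + 1) → K) (p i : Fin (n + 1)) (a b : Fin n) :
    elA r p i s(a, b) = -(r (p.succAbove a) / r p) * (if i = p.succAbove b then 1 else 0) -
      (r (p.succAbove b) / r p) * (if i = p.succAbove a then 1 else 0) +
      (r (p.succAbove a) / r p) * (r (p.succAbove b) / r p) * (if i = p then 1 else 0) := rfl

private theorem elA_key {n : ℕ} (r : Fin (n + 1) → K) (p : Fin (n + 1))
    (x y : Fin (n + 1) → K) (s : Sym2 (Fin n)) :
    sprod x y (Sym2.map p.succAbove s) + ∑ i, sprod x y s(p, i) * elA r p i s =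
      sprod (el r p x) (el r p y) s := by
  induction s with
  | _ a b =>
    have h1 : ∀ c : Fin (n + 1), ∑ i, sprod x y s(p, i) * (if i = c then (1 : K) else 0) =
        sprod x y s(p, c) := by
      intro c
      rw [Finset.sum_eq_single c]
      · rw [if_pos rfl, mul_one]
      · intro i _ hi
        rw [if_neg hi, mul_zero]
      · intro h
        exact absurd (Finset.mem_univ c) h
    have h2 : ∑ i, sprod x y s(p, i) * elA r p i s(a, b) =
        -(r (p.succAbove a) / r p) * sprod x y s(p, p.succAbove b) -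
        (r (p.succAbove b) / r p) * sprod x y s(p, p.succAbove a) +
        (r (p.succAbove a) / r p) * (r (p.succAbove b) / r p) * sprod x y s(p, p) := by
      rw [← h1 (p.succAbove b), ← h1 (p.succAbove a), ← h1 p, Finset.mul_sum, Finset.mul_sum,
        Finset.mul_sum, ← Finset.sum_sub_distrib, ← Finset.sum_add_distrib]
      refine Finset.sum_congr rfl fun i _ => ?_
      rw [elA_mk]
      ring
    rw [h2, Sym2.map_mk, sprod_mk, sprod_mk, sprod_mk, sprod_mk, sprod_mk]
    simp only [el]
    ring

private theorem el_self {n : ℕ} (r : Fin (n + 1) → K) (p : Fin (n + 1)) (hp : r p ≠ 0) :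
    el r p r = 0 := by
  funext j
  show r (p.succAbove j) - r (p.succAbove j) / r p * r p = 0
  rw [div_mul_cancel₀ _ hp, sub_self]

private theorem sprod_zero {n : ℕ} (y : Fin n → K) (s : Sym2 (Fin n)) : sprod 0 y s = 0 := by
  induction s with
  | _ a b =>
    rw [sprod_mk]
    simp

private theorem det_H {n : ℕ} (r : Fin (n + 1) → K) (p : Fin (n + 1)) (hp : r p ≠ 0) :
    Matrix.det (Matrix.of fun l i : Fin (n + 1) =>
      r p * (if l = i then 1 else 0) + r i * (if l = p then 1 else 0)) = 2 * r p ^ (n + 1) := by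
  have h1 : (Matrix.of fun l i : Fin (n + 1) =>
      r p * (if l = i then (1 : K) else 0) + r i * (if l = p then 1 else 0)) =
      r p • (1 + Matrix.replicateCol Unit (fun l : Fin (n + 1) => if l = p then (1 : K) else 0) *
        Matrix.replicateRow Unit (fun i => r i / r p)) := by
    ext l i
    simp only [Matrix.of_apply, Matrix.smul_apply, Matrix.add_apply, Matrix.one_apply,
      Matrix.mul_apply, Matrix.replicateCol_apply, Matrix.replicateRow_apply, smul_eq_mul,
      Finset.univ_unique, Finset.sum_singleton]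
    split_ifs <;> field_simp
  rw [h1, Matrix.det_smul, Matrix.det_one_add_replicateCol_mul_replicateRow, Fintype.card_fin]
  have h2 : (fun i => r i / r p) ⬝ᵥ (fun l : Fin (n + 1) => if l = p then (1 : K) else 0) = 1 := by
    rw [dotProduct, Finset.sum_eq_single p]
    · rw [if_pos rfl, mul_one, div_self hp]
    · intro i _ hi
      rw [if_neg hi, mul_zero]
    · intro h
      exact absurd (Finset.mem_univ p) h
  rw [h2]
  ring

theorem sdet_el {n : ℕ} (r : Fin (n + 1) → K) (p : Fin (n + 1)) (hp : r p ≠ 0)
    (x y : Sym2 (Fin n) → Fin (n + 1) → K) (R : Fin (n + 1) → Fin (n + 1) → K) :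
    sdet (fun f => Sum.elim x (fun _ => r) ((ep p).symm f)) (fun f => Sum.elim y R ((ep p).symm f)) =
      2 * r p ^ (n + 1) * br R * sdet (fun g => el r p (x g)) (fun g => el r p (y g)) := by
  classical
  set M11 : Matrix (Sym2 (Fin n)) (Sym2 (Fin n)) K :=
    Matrix.of fun g s => sprod (x g) (y g) (Sym2.map p.succAbove s) with hM11
  set M12 : Matrix (Sym2 (Fin n)) (Fin (n + 1)) K :=
    Matrix.of fun g i => sprod (x g) (y g) s(p, i) with hM12
  set M21 : Matrix (Fin (n + 1)) (Sym2 (Fin n)) K :=
    Matrix.of fun j s => sprod r (R j) (Sym2.map p.succAbove s) with hM21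
  set M22 : Matrix (Fin (n + 1)) (Fin (n + 1)) K :=
    Matrix.of fun j i => sprod r (R j) s(p, i) with hM22
  have h1 : sdet (fun f => Sum.elim x (fun _ => r) ((ep p).symm f))
      (fun f => Sum.elim y R ((ep p).symm f)) = (Matrix.fromBlocks M11 M12 M21 M22).det := by
    unfold sdet
    rw [← Matrix.det_submatrix_equiv_self (ep p)]
    congr 1
    ext a b
    show sprod (Sum.elim x (fun _ => r) ((ep p).symm (ep p a)))
      (Sum.elim y R ((ep p).symm (ep p a))) (ep p b) = _
    rw [Equiv.symm_apply_apply]
    rcases a with a | a <;> rcases b with b | b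
    · rw [Matrix.fromBlocks_apply₁₁, ep_inl]; rfl
    · rw [Matrix.fromBlocks_apply₁₂, ep_inr]; rfl
    · rw [Matrix.fromBlocks_apply₂₁, ep_inl]; rfl
    · rw [Matrix.fromBlocks_apply₂₂, ep_inr]; rfl
  have h2 : Matrix.fromBlocks M11 M12 M21 M22 *
      Matrix.fromBlocks (1 : Matrix (Sym2 (Fin n)) (Sym2 (Fin n)) K) 0 (elA r p)
        (1 : Matrix (Fin (n + 1)) (Fin (n + 1)) K) =
      Matrix.fromBlocks (Matrix.of fun g => sprod (el r p (x g)) (el r p (y g))) M12 0 M22 := by
    rw [Matrix.fromBlocks_multiply, Matrix.mul_one, Matrix.mul_one, Matrix.mul_zero,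
      Matrix.mul_one, Matrix.mul_zero, Matrix.mul_one, zero_add, zero_add]
    congr 1
    · ext g s
      rw [Matrix.add_apply, Matrix.mul_apply]
      exact elA_key r p (x g) (y g) s
    · ext j s
      rw [Matrix.add_apply, Matrix.mul_apply]
      refine (elA_key r p r (R j) s).trans ?_
      rw [el_self r p hp, sprod_zero]
      rfl
  have h3 : M22 = Matrix.of R * (Matrix.of fun l i : Fin (n + 1) =>
      r p * (if l = i then 1 else 0) + r i * (if l = p then 1 else 0)) := by
    ext j i
    rw [Matrix.mul_apply]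
    simp only [hM22, Matrix.of_apply, sprod_mk, mul_add, Finset.sum_add_distrib]
    rw [Finset.sum_eq_single i, Finset.sum_eq_single p]
    · rw [if_pos rfl, if_pos rfl]
      ring
    · intro l _ hl
      rw [if_neg hl]
      ring
    · intro h
      exact absurd (Finset.mem_univ p) h
    · intro l _ hl
      rw [if_neg hl]
      ring
    · intro h
      exact absurd (Finset.mem_univ i) h
  have h4 : (Matrix.fromBlocks M11 M12 M21 M22).det =
      (Matrix.of fun g => sprod (el r p (x g)) (el r p (y g))).det * M22.det := by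
    have h5 := congrArg Matrix.det h2
    rw [Matrix.det_mul, Matrix.det_fromBlocks_zero₁₂, Matrix.det_one, Matrix.det_one, mul_one,
      mul_one, Matrix.det_fromBlocks_zero₂₁] at h5
    exact h5
  rw [h1, h4, h3, Matrix.det_mul, det_H r p hp]
  unfold br sdet
  ring

end Pool.Agent.KServer.SY
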