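import Pool.Agent.Work.MP_fe875b_lc.SY.Elm
import Pool.Agent.Work.MP_fe875b_lc.SY.SyE

/-!
MP_fe875b_lc, SY/Ck (size M-L): the Coester-Koutsoupias family.

For vectors `y i` and `Y i j` there is a family of products `y i * Y i j` (indexed by `Sym2 (Fin n)`) whose determinant has valuation at most the sum of the valuations of the
brackets `[y 0, .., y (i-1), Y i i, .., Y i (n-1)]`, `i = 0, .., n-1`, and `[y 0, .., y (n-1)]`.

Induction on `n`. `n = 0`: `Sym2 (Fin 0)` is empty, both sides are 0 (determinant of an empty matrix is 1).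
`n + 1`: if `y 0 = 0` then the bracket `br y` is 0 (zero row), the right side is `⊤`. Otherwise choose `p` with `y 0 p ≠ 0`, `r = y 0`, and apply the induction hypothesis to
`y' j = el r p (y j.succ)`, `Y' i j = el r p (Y i.succ j.succ)`: a family `G'`. Put `G f = Sum.elim (fun g => ((G' g).1.succ, (G' g).2.succ)) (fun j => (0, j)) ((ep p).symm f)`.
By `sdet_el` (with `x g = y (G' g).1.succ`, ..., `R = Y 0`; `funext` and cases on `(ep p).symm f` to identify the functions) the determinant is
`2 * (y 0 p)^(n+1) * br (Y 0) * sdet(family of G')`; valuation of 2 is 0 (`hv2`). By `br_el` with `c = 0` (`Fin.zero_succAbove`) for `i : Fin n`: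
the bracket number `i.succ` of `(y, Y)` has row 0 equal to `y 0` and the rows `j.succ` are `if j.succ < i.succ then y j.succ else Y i.succ j.succ`, so its valuation is
`v (y 0 p) + v (bracket number i of (y', Y'))`; the same for `br y`. Sum (`Fin.sum_univ_succ`): `(n+1) • v (y 0 p) + ...`: exactly `n + 1` brackets (`i.succ` for `i : Fin n`, and `br y`).
The bracket number 0 is `br (Y 0)` (`j < 0` is false).
-/

set_option autoImplicit false

namespace Pool.Agent.KServer.SY

variable {K : Type} [Field K]

private theorem ck_sign (v : AddValuation K (WithTop ℝ)) (m : ℕ) (x : K) :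
    v ((-1) ^ m * x) = v x := by
  rcases neg_one_pow_eq_or K m with h | h
  · rw [h, one_mul]
  · rw [h, neg_one_mul, AddValuation.map_neg]

private theorem ck_br (v : AddValuation K (WithTop ℝ)) {n : ℕ} (r : Fin (n + 1) → K)
    (p : Fin (n + 1)) (hp : r p ≠ 0) (x : Fin (n + 1) → Fin (n + 1) → K) (hx : x 0 = r) :
    v (br x) = v (r p) + v (br fun j : Fin n => el r p (x j.succ)) := by
  rw [br_el r p hp x 0 hx, ck_sign, AddValuation.map_mul]
  simp only [Fin.zero_succAbove]

theorem ck (v : AddValuation K (WithTop ℝ)) (hv2 : v 2 = 0) (n : ℕ) (y : Fin n → Fin n → K)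
    (Y : Fin n → Fin n → Fin n → K) : ∃ G : Sym2 (Fin n) → Fin n × Fin n,
      v (sdet (fun f => y (G f).1) (fun f => Y (G f).1 (G f).2)) ≤
        (∑ i : Fin n, v (br fun j => if j < i then y j else Y i j)) + v (br y) := by
  induction n with
  | zero =>
    refine ⟨fun f => isEmptyElim f, ?_⟩
    rw [sdet, br, Matrix.det_isEmpty, Matrix.det_isEmpty, AddValuation.map_one]
    simp
  | succ n ih =>
    by_cases h0 : y 0 = 0
    · refine ⟨fun _ => (0, 0), ?_⟩
      have h1 : br y = 0 := Matrix.det_eq_zero_of_row_eq_zero 0 fun j => by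
        show y 0 j = 0
        rw [h0]; rfl
      rw [h1, AddValuation.map_zero, WithTop.add_top]
      exact le_top
    · obtain ⟨p, hp⟩ : ∃ p, y 0 p ≠ 0 := by
        by_contra hcon
        push Not at hcon
        exact h0 (funext hcon)
      obtain ⟨r, hr⟩ : ∃ r, r = y 0 := ⟨_, rfl⟩
      rw [← hr] at hp
      obtain ⟨G', hG'⟩ := ih (fun j => el r p (y j.succ)) (fun i j => el r p (Y i.succ j.succ))
      refine ⟨fun f => Sum.elim (fun g => ((G' g).1.succ, (G' g).2.succ)) (fun j => (0, j))
        ((ep p).symm f), ?_⟩
      have e1 : (fun f => y (Sum.elim (fun g => ((G' g).1.succ, (G' g).2.succ))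
          (fun j => ((0 : Fin (n + 1)), j)) ((ep p).symm f)).1) =
          fun f => Sum.elim (fun g => y (G' g).1.succ) (fun _ => r) ((ep p).symm f) := by
        funext f
        rcases (ep p).symm f with g | j
        · rfl
        · exact hr.symm
      have e2 : (fun f => Y (Sum.elim (fun g => ((G' g).1.succ, (G' g).2.succ))
          (fun j => ((0 : Fin (n + 1)), j)) ((ep p).symm f)).1
          (Sum.elim (fun g => ((G' g).1.succ, (G' g).2.succ))
          (fun j => ((0 : Fin (n + 1)), j)) ((ep p).symm f)).2) =
          fun f => Sum.elim (fun g => Y (G' g).1.succ (G' g).2.succ) (Y 0) ((ep p).symm f) := by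
        funext f
        rcases (ep p).symm f with g | j
        · rfl
        · rfl
      rw [e1, e2, sdet_el r p hp, Fin.sum_univ_succ]
      have h2 : (fun j : Fin (n + 1) => if j < 0 then y j else Y 0 j) = Y 0 := by
        funext j
        rw [if_neg (Fin.not_lt_zero j)]
      have h3 : ∀ i : Fin n, v (br fun j : Fin (n + 1) => if j < i.succ then y j else Y i.succ j) =
          v (r p) + v (br fun j : Fin n => if j < i then el r p (y j.succ)
            else el r p (Y i.succ j.succ)) := by
        intro i
        rw [ck_br v r p hp _ (by rw [if_pos (Fin.succ_pos i), hr])]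
        congr 2
        congr 1
        funext j
        by_cases hji : j < i
        · rw [if_pos hji, if_pos (Fin.succ_lt_succ_iff.2 hji)]
        · rw [if_neg hji, if_neg (fun h => hji (Fin.succ_lt_succ_iff.1 h))]
      have h4 : v (br y) = v (r p) + v (br fun j : Fin n => el r p (y j.succ)) :=
        ck_br v r p hp y hr.symm
      rw [h2, Finset.sum_congr rfl fun i _ => h3 i, h4, Finset.sum_add_distrib, Finset.sum_const,
        Finset.card_univ, Fintype.card_fin, AddValuation.map_mul, AddValuation.map_mul,
        AddValuation.map_mul, hv2, zero_add, AddValuation.map_pow]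
      refine (add_le_add_right hG' _).trans (le_of_eq ?_)
      rw [succ_nsmul]
      abel

end Pool.Agent.KServer.SY
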