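import Pool.Agent.Work.MP_fe875b_lc.W.Fin

/-!
MP_fe875b_lc, SY (the k-server conjecture for all k and all metric spaces), definitions. This file is FIXED.

Paper proof: the potential is the minimal valuation of a determinant of products of antipodal pairs in the symmetric square of a k-dimensional
space over a valued field; the work function is the valuation of the k x k determinants (brackets).

* `VF K`: a field with a valuation to `WithTop ℝ`, elements `τ a` of valuation `a`; nonzero rational constants have valuation 0.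
* `br x`: determinant of the matrix with rows `x i`.
* `sprod x y`: the product of two vectors in the symmetric square: coordinate `s(i,j)` is `x i * y j + x j * y i`.
* `sdet x y`: determinant of the family of products `x f * y f`, `f ∈ Sym2 (Fin n)`.
* `el r p x`: the vector `x` modulo `r` (pivot `p`, `r p ≠ 0`), the coordinate `p` is dropped; `ins p q x`: insert the coordinate `q` at `p`.
* `ep p`: `Sym2 (Fin n) ⊕ Fin (n+1) ≃ Sym2 (Fin (n+1))`: pairs without `p` and the pairs `s(p,i)`.
* `Good F w vec κ`: the vectors `vec (x,l)` (point `x`, label `l`) and the scalar `κ` realise the work function `w`.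
* `pot F anti vec κ`: the potential.
-/

set_option autoImplicit false

namespace Pool.Agent.KServer.SY

open Finset

/-- a valued field; nonzero rational constants have valuation 0 -/
structure VF (K : Type) [Field K] [Algebra ℚ K] where
  v : AddValuation K (WithTop ℝ)
  τ : ℝ → K
  hτ : ∀ a : ℝ, v (τ a) = (a : WithTop ℝ)
  hq : ∀ c : ℚ, c ≠ 0 → v (algebraMap ℚ K c) = 0

section

variable {K : Type} [Field K]

/-- determinant of the matrix with rows `x i` -/
def br {n : ℕ} (x : Fin n → Fin n → K) : K := Matrix.det (Matrix.of x)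

/-- the product of two vectors in the symmetric square -/
def sprod {n : ℕ} (x y : Fin n → K) : Sym2 (Fin n) → K :=
  Sym2.lift ⟨fun i j => x i * y j + x j * y i, fun _ _ => add_comm _ _⟩

theorem sprod_mk {n : ℕ} (x y : Fin n → K) (i j : Fin n) :
    sprod x y s(i, j) = x i * y j + x j * y i := rfl

/-- determinant of a family of products -/
def sdet {n : ℕ} (x y : Sym2 (Fin n) → Fin n → K) : K :=
  Matrix.det (Matrix.of fun f => sprod (x f) (y f))

/-- `x` modulo `r`, pivot `p` -/
def el {n : ℕ} (r : Fin (n + 1) → K) (p : Fin (n + 1)) (x : Fin (n + 1) → K) : Fin n → K :=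
  fun j => x (p.succAbove j) - r (p.succAbove j) / r p * x p

/-- insert the coordinate `q` at `p` -/
def ins {n : ℕ} (p : Fin (n + 1)) (q : K) (x : Fin n → K) : Fin (n + 1) → K :=
  Fin.insertNth (α := fun _ => K) p q x

theorem ins_self {n : ℕ} (p : Fin (n + 1)) (q : K) (x : Fin n → K) : ins p q x p = q := by
  simp [ins]

theorem ins_succ {n : ℕ} (p : Fin (n + 1)) (q : K) (x : Fin n → K) (j : Fin n) :
    ins p q x (p.succAbove j) = x j := by
  simp [ins]

end

/-- the map `Sym2 (Fin n) ⊕ Fin (n+1) → Sym2 (Fin (n+1))` -/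
def epF {n : ℕ} (p : Fin (n + 1)) : Sym2 (Fin n) ⊕ Fin (n + 1) → Sym2 (Fin (n + 1)) :=
  Sum.elim (Sym2.map p.succAbove) fun i => s(p, i)

theorem epF_bij {n : ℕ} (p : Fin (n + 1)) : Function.Bijective (epF p) := by
  constructor
  · rintro (a | i) (b | j) h
    · have h1 : Sym2.map p.succAbove a = Sym2.map p.succAbove b := h
      rw [Sym2.map.injective p.succAbove_right_injective h1]
    · exfalso
      have h1 : Sym2.map p.succAbove a = s(p, j) := h
      have h2 : p ∈ Sym2.map p.succAbove a := by rw [h1]; exact Sym2.mem_mk_left p j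
      obtain ⟨c, -, hc⟩ := Sym2.mem_map.1 h2
      exact Fin.succAbove_ne p c hc
    · exfalso
      have h1 : s(p, i) = Sym2.map p.succAbove b := h
      have h2 : p ∈ Sym2.map p.succAbove b := by rw [← h1]; exact Sym2.mem_mk_left p i
      obtain ⟨c, -, hc⟩ := Sym2.mem_map.1 h2
      exact Fin.succAbove_ne p c hc
    · have h1 : s(p, i) = s(p, j) := h
      rw [Sym2.congr_right.1 h1]
  · intro z
    induction z with
    | _ a b =>
      by_cases ha : a = p
      · subst ha
        exact ⟨Sum.inr b, rfl⟩
      · by_cases hb : b = p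
        · subst hb
          exact ⟨Sum.inr a, Sym2.eq_swap⟩
        · obtain ⟨a', rfl⟩ := Fin.exists_succAbove_eq ha
          obtain ⟨b', rfl⟩ := Fin.exists_succAbove_eq hb
          exact ⟨Sum.inl s(a', b'), rfl⟩

/-- pairs without `p` and pairs `s(p,i)` -/
noncomputable def ep {n : ℕ} (p : Fin (n + 1)) : Sym2 (Fin n) ⊕ Fin (n + 1) ≃ Sym2 (Fin (n + 1)) :=
  Equiv.ofBijective (epF p) (epF_bij p)

theorem ep_inl {n : ℕ} (p : Fin (n + 1)) (s : Sym2 (Fin n)) :
    ep p (Sum.inl s) = Sym2.map p.succAbove s := rfl

theorem ep_inr {n : ℕ} (p : Fin (n + 1)) (i : Fin (n + 1)) : ep p (Sum.inr i) = s(p, i) := rfl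

/-- the vectors and the scalar realise the work function -/
structure Good {K : Type} [Field K] [Algebra ℚ K] (F : VF K) {V : Type} {k m : ℕ}
    (w : (Fin k → V) → ℝ) (vec : V × Fin m → Fin k → K) (κ : K) : Prop where
  κ0 : κ ≠ 0
  eq : ∀ C : Fin k → V × Fin m, Function.Injective C →
    F.v (κ * br fun i => vec (C i)) = ((w fun i => (C i).1 : ℝ) : WithTop ℝ)

theorem Good.le {K : Type} [Field K] [Algebra ℚ K] {F : VF K} {V : Type} {k m : ℕ}
    {w : (Fin k → V) → ℝ} {vec : V × Fin m → Fin k → K} {κ : K} (h : Good F w vec κ)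
    (C : Fin k → V × Fin m) :
    ((w fun i => (C i).1 : ℝ) : WithTop ℝ) ≤ F.v (κ * br fun i => vec (C i)) := by
  by_cases hC : Function.Injective C
  · exact (h.eq C hC).ge
  · have h1 : br (fun i => vec (C i)) = 0 := by
      rw [Function.Injective] at hC
      push Not at hC
      obtain ⟨i, j, hij, hne⟩ := hC
      exact Matrix.det_zero_of_row_eq hne (by
        show vec (C i) = vec (C j)
        rw [hij])
    rw [h1, mul_zero, AddValuation.map_zero]
    exact le_top

/-- the potential: minimal valuation of the determinants of families of products of antipodal pairs -/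
noncomputable def pot {K : Type} [Field K] [Algebra ℚ K] (F : VF K) {V : Type} [Fintype V]
    {k m : ℕ} (anti : V → V) (vec : V × Fin m → Fin k → K) (κ : K) : WithTop ℝ :=
  Finset.univ.inf fun G : Sym2 (Fin k) → V × Fin m × Fin m =>
    F.v (κ ^ (k + 1) * sdet (fun f => vec ((G f).1, (G f).2.1))
      (fun f => vec (anti (G f).1, (G f).2.2)))

theorem pot_le {K : Type} [Field K] [Algebra ℚ K] (F : VF K) {V : Type} [Fintype V]
    {k m : ℕ} (anti : V → V) (vec : V × Fin m → Fin k → K) (κ : K)
    (G : Sym2 (Fin k) → V × Fin m × Fin m) :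
    pot F anti vec κ ≤ F.v (κ ^ (k + 1) * sdet (fun f => vec ((G f).1, (G f).2.1))
      (fun f => vec (anti (G f).1, (G f).2.2))) :=
  Finset.inf_le (Finset.mem_univ G)

theorem le_pot {K : Type} [Field K] [Algebra ℚ K] (F : VF K) {V : Type} [Fintype V]
    {k m : ℕ} (anti : V → V) (vec : V × Fin m → Fin k → K) (κ : K) (c : WithTop ℝ)
    (h : ∀ G : Sym2 (Fin k) → V × Fin m × Fin m,
      c ≤ F.v (κ ^ (k + 1) * sdet (fun f => vec ((G f).1, (G f).2.1))
        (fun f => vec (anti (G f).1, (G f).2.2)))) :
    c ≤ pot F anti vec κ :=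
  Finset.le_inf fun G _ => h G

end Pool.Agent.KServer.SY
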