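import Pool.Agent.Work.MP_fe875b_lc.SY.Defs

/-!
MP_fe875b_lc, SY/Elm (size M): elimination identities for brackets. Pure linear algebra over a field.

`br_el`: the row `c` of `x` is `r`. Subtract from column `p.succAbove j` the column `p` times `r (p.succAbove j) / r p` (determinant unchanged, e.g. multiply on the right by a
matrix of determinant 1, or `Matrix.det_eq_of_forall_col_eq_smul_add_const`); now the row `c` is `r p` at `p` and zero elsewhere; Laplace expansion along the row `c`
(`Matrix.det_succ_row`) has the single term `(-1)^(c+p) * r p * det (submatrix c.succAbove p.succAbove)`, and this submatrix is `el r p (x (c.succAbove j))`.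

`br_ins`: expand the left determinant along the column `p` (`Matrix.det_succ_column`): entry in the row `c` is `q c`, minor: rows `c.succAbove j`, entries
`el r p (x (c.succAbove j))`. By `br_el` for the family `Function.update x c r` (row `c` is `r`, the other rows are unchanged:
`Function.update_of_ne (Fin.succAbove_ne c j)`) each term `r p * (-1)^(c+p) * q c * minor` is `q c * br (Function.update x c r)`.
-/

set_option autoImplicit false

namespace Pool.Agent.KServer.SY

variable {K : Type} [Field K]

theorem br_el {n : ℕ} (r : Fin (n + 1) → K) (p : Fin (n + 1)) (hp : r p ≠ 0)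
    (x : Fin (n + 1) → Fin (n + 1) → K) (c : Fin (n + 1)) (hc : x c = r) :
    br x = (-1) ^ ((c : ℕ) + (p : ℕ)) * (r p * br fun j => el r p (x (c.succAbove j))) := by
  classical
  obtain ⟨coef, hcoef⟩ : ∃ coef : Fin (n + 1) → K, coef = fun j => if j = p then 0 else r j / r p :=
    ⟨_, rfl⟩
  obtain ⟨B, hB⟩ : ∃ B : Matrix (Fin (n + 1)) (Fin (n + 1)) K,
      B = Matrix.of fun i j => x i j - coef j * x i p := ⟨_, rfl⟩
  have hp0 : coef p = 0 := by rw [hcoef]; simp
  have h1 : br x = B.det := by
    rw [br, ← Matrix.det_transpose, ← Matrix.det_transpose B]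
    refine Matrix.det_eq_of_forall_row_eq_smul_add_const coef p hp0 fun i j => ?_
    simp only [Matrix.transpose_apply, hB, Matrix.of_apply, hp0, zero_mul, sub_zero]
    ring
  rw [h1, Matrix.det_succ_row B c, Finset.sum_eq_single p]
  · have h2 : B c p = r p := by
      rw [hB, Matrix.of_apply, hp0, zero_mul, sub_zero, hc]
    have h3 : B.submatrix c.succAbove p.succAbove =
        Matrix.of fun j => el r p (x (c.succAbove j)) := by
      ext i j
      rw [Matrix.submatrix_apply, hB, Matrix.of_apply, Matrix.of_apply, hcoef, el]
      simp only [if_neg (Fin.succAbove_ne p j)]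
    rw [h2, h3, mul_assoc]
    rfl
  · intro j _ hj
    have h2 : B c j = 0 := by
      rw [hB, Matrix.of_apply, hcoef, hc]
      simp only [if_neg hj]
      field_simp
      ring
    rw [h2, mul_zero, zero_mul]
  · intro h
    exact absurd (Finset.mem_univ p) h

theorem br_ins {n : ℕ} (r : Fin (n + 1) → K) (p : Fin (n + 1)) (hp : r p ≠ 0)
    (x : Fin (n + 1) → Fin (n + 1) → K) (q : Fin (n + 1) → K) :
    r p * br (fun c => ins p (q c) (el r p (x c))) = ∑ c, q c * br (Function.update x c r) := by
  classical
  rw [br, Matrix.det_succ_column _ p, Finset.mul_sum]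
  refine Finset.sum_congr rfl fun c _ => ?_
  rw [br_el r p hp (Function.update x c r) c (Function.update_self c r x)]
  have h1 : (fun j => el r p (Function.update x c r (c.succAbove j))) =
      fun j => el r p (x (c.succAbove j)) := by
    funext j
    rw [Function.update_of_ne (Fin.succAbove_ne c j)]
  have h2 : (Matrix.of fun c => ins p (q c) (el r p (x c))).submatrix c.succAbove p.succAbove =
      Matrix.of fun j => el r p (x (c.succAbove j)) := by
    ext i j
    rw [Matrix.submatrix_apply, Matrix.of_apply, Matrix.of_apply, ins_succ]
  rw [h1, h2, Matrix.of_apply, ins_self, br]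
  ring

end Pool.Agent.KServer.SY
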