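import Pool.Agent.Work.MP_fe875b_lc.SY.Defs

/-!
MP_fe875b_lc, SY/Row (size S-M): valuation of a determinant whose rows are linear combinations.

`det (rows ∑ l, a j l • z j l) = ∑ g : J → Λ, (∏ j, a j (g j)) * det (rows z j (g j))` (`Matrix.detRowAlternating` is multilinear:
`MultilinearMap.map_sum`, `MultilinearMap.map_smul_univ`), then the ultrametric inequality for finite sums (`AddValuation.map_le_sum`) and
`v (∏) = ∑ v` (`AddValuation.map_prod` if it exists, otherwise induction).
-/

set_option autoImplicit false

namespace Pool.Agent.KServer.SY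

theorem det_rows_comb {K : Type} [Field K] (v : AddValuation K (WithTop ℝ)) {J Λ : Type}
    [Fintype J] [DecidableEq J] [Fintype Λ] (a : J → Λ → K) (z : J → Λ → J → K) (c : WithTop ℝ)
    (h : ∀ g : J → Λ, c ≤ (∑ j, v (a j (g j))) + v (Matrix.of fun j => z j (g j)).det) :
    c ≤ v (Matrix.of fun j => ∑ l, a j l • z j l).det := by
  classical
  have h1 : (Matrix.of fun j => ∑ l, a j l • z j l).det =
      ∑ g : J → Λ, (∏ j, a j (g j)) * (Matrix.of fun j => z j (g j)).det := by
    have e1 : (Matrix.of fun j => ∑ l, a j l • z j l).det =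
        (Matrix.detRowAlternating : (J → K) [⋀^J]→ₗ[K] K).toMultilinearMap
          (fun j => ∑ l, a j l • z j l) := rfl
    rw [e1, MultilinearMap.map_sum]
    refine Finset.sum_congr rfl fun g _ => ?_
    rw [MultilinearMap.map_smul_univ]
    rfl
  have h2 : ∀ (s : Finset J) (f : J → K), v (∏ j ∈ s, f j) = ∑ j ∈ s, v (f j) := by
    intro s f
    induction s using Finset.induction_on with
    | empty => rw [Finset.prod_empty, Finset.sum_empty, AddValuation.map_one]
    | insert a s ha ih => rw [Finset.prod_insert ha, Finset.sum_insert ha, AddValuation.map_mul, ih]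
  rw [h1]
  refine AddValuation.map_le_sum v fun g _ => ?_
  rw [AddValuation.map_mul, h2]
  exact h g

end Pool.Agent.KServer.SY
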