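import Pool.Agent.Work.MP_fe875b_lc.SY.SyE
import Pool.Agent.Work.MP_fe875b_lc.SY.Row

/-!
MP_fe875b_lc, SY/InA (size M): upper bound for the potential before the request (step (2) of the paper proof).

The family `x f * y f`, `f = ep p (inl g)`: `vec (x_g, l_g) * vec (anti x_g, l'_g)`; `f = ep p (inr i)`: `ρ * R i`, `R i = vec (anti r, label i)`, label `i` = `Fin.castLE hm i`.
By `sdet_el` and the scalar `κ^(n+2)`: `κ^(n+2) * sdet = (κ ρ_p)^(n+1) * 2 * (κ * br R) * sdet (el ..)`; valuation `(n+1) • v (κ ρ_p) + w (anti r, .., anti r) + v (sdet (el ..))`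
(`Good.eq` for the injective family `i ↦ (anti r, label i)`; `v 2 = 0` by `F.hq 2`; `AddValuation.map_pow`).
On the other hand the rows `f = ep p (inr i)` are `sprod ρ (R i) = ∑ l, a l * sprod (vec (r,l)) (R i)`: by `det_rows_comb` (`Λ = Fin m`; for the rows `ep p (inl g)` take
`a j l = 1` for one label `l₀` and `0` for the others, e.g. `if l = l₀ then 1 else 0` with `z j l` the row itself; if `0 < m` fails there is nothing, `m ≥ n+1`) it is enough that for every
choice `g : Sym2 (Fin (n+1)) → Fin m` the determinant with `ρ` replaced by `vec (r, g f)` in the row `f`, times `κ^(n+2)`, has valuation `≥ pot` up to the valuations `≥ 0` of the coefficients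
(`v (algebraMap c) ≥ 0`; a coefficient 0 gives `⊤`): this is `pot_le` for the family `G' f = (x_g, l_g, l'_g)` resp. `(r, g f, label i)`.
(Use `c - v (κ^(n+2))`: `κ ≠ 0`, or apply `det_rows_comb` to the valuation inequality after moving the real number `v (κ^(n+2))` to the other side; or multiply one row.)
-/

set_option autoImplicit false

namespace Pool.Agent.KServer.SY

private theorem v_ratcast_nonneg {K : Type} [Field K] [Algebra ℚ K] (F : VF K) (c : ℚ) :
    0 ≤ F.v (algebraMap ℚ K c) := by
  by_cases hc : c = 0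
  · rw [hc, map_zero, AddValuation.map_zero]
    exact le_top
  · exact (F.hq c hc).ge

private theorem pot_le_comb {K : Type} [Field K] [Algebra ℚ K] (F : VF K) {V : Type} [Fintype V]
    {n m : ℕ} (hm : n + 1 ≤ m) (anti : V → V)
    {vec : V × Fin m → Fin (n + 1) → K} {κ : K} (r : V)
    (ρ : Fin (n + 1) → K) (a : Fin m → ℚ) (p : Fin (n + 1))
    (hρ : ρ = fun i => ∑ l, algebraMap ℚ K (a l) * vec (r, l) i)
    (G : Sym2 (Fin n) → V × Fin m × Fin m) :
    pot F anti vec κ ≤ F.v (κ ^ (n + 1 + 1) *
      sdet (fun f => Sum.elim (fun g => vec ((G g).1, (G g).2.1)) (fun _ => ρ) ((ep p).symm f))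
        (fun f => Sum.elim (fun g => vec (anti (G g).1, (G g).2.2))
          (fun i => vec (anti r, Fin.castLE hm i)) ((ep p).symm f))) := by
  classical
  have hm0 : 0 < m := by omega
  set co : Sym2 (Fin (n + 1)) → Fin m → K := fun f l =>
    Sum.elim (fun _ => if l = ⟨0, hm0⟩ then (1 : K) else 0) (fun _ => algebraMap ℚ K (a l))
      ((ep p).symm f) with hco
  set z : Sym2 (Fin (n + 1)) → Fin m → Sym2 (Fin (n + 1)) → K := fun f l =>
    sprod (Sum.elim (fun g => vec ((G g).1, (G g).2.1)) (fun _ => vec (r, l)) ((ep p).symm f))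
      (Sum.elim (fun g => vec (anti (G g).1, (G g).2.2))
          (fun i => vec (anti r, Fin.castLE hm i)) ((ep p).symm f)) with hz
  have hrow : ∀ f, sprod
      (Sum.elim (fun g => vec ((G g).1, (G g).2.1)) (fun _ => ρ) ((ep p).symm f))
      (Sum.elim (fun g => vec (anti (G g).1, (G g).2.2))
          (fun i => vec (anti r, Fin.castLE hm i)) ((ep p).symm f)) = ∑ l, co f l • z f l := by
    intro f
    rw [hco, hz]
    beta_reduce
    rcases (ep p).symm f with g | i
    · simp only [Sum.elim_inl]
      rw [Finset.sum_eq_single (⟨0, hm0⟩ : Fin m)]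
      · rw [if_pos rfl, one_smul]
      · intro b _ hb
        rw [if_neg hb, zero_smul]
      · intro hb
        exact absurd (Finset.mem_univ _) hb
    · simp only [Sum.elim_inr]
      funext s
      induction s with
      | _ c d =>
        rw [Finset.sum_apply]
        simp only [Pi.smul_apply, sprod_mk, smul_eq_mul, hρ]
        rw [Finset.sum_mul, Finset.sum_mul, ← Finset.sum_add_distrib]
        refine Finset.sum_congr rfl fun l _ => ?_
        ring
  have hS : sdet (fun f => Sum.elim (fun g => vec ((G g).1, (G g).2.1)) (fun _ => ρ) ((ep p).symm f))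
        (fun f => Sum.elim (fun g => vec (anti (G g).1, (G g).2.2))
          (fun i => vec (anti r, Fin.castLE hm i)) ((ep p).symm f)) =
        (Matrix.of fun f => ∑ l, co f l • z f l).det := by
    unfold sdet
    congr 2
    funext f
    exact hrow f
  have hne : (Finset.univ : Finset (Sym2 (Fin (n + 1)) → Fin m)).Nonempty :=
    ⟨fun _ => ⟨0, hm0⟩, Finset.mem_univ _⟩
  obtain ⟨g₀, -, hg₀⟩ := Finset.exists_mem_eq_inf Finset.univ hne
    (fun g : Sym2 (Fin (n + 1)) → Fin m =>
      (∑ j, F.v (co j (g j))) + F.v (Matrix.of fun j => z j (g j)).det)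
  have hle : (∑ j, F.v (co j (g₀ j))) + F.v (Matrix.of fun j => z j (g₀ j)).det ≤
      F.v (Matrix.of fun f => ∑ l, co f l • z f l).det := by
    refine det_rows_comb F.v co z _ fun g => ?_
    rw [← hg₀]
    exact Finset.inf_le (f := fun g : Sym2 (Fin (n + 1)) → Fin m =>
      (∑ j, F.v (co j (g j))) + F.v (Matrix.of fun j => z j (g j)).det) (Finset.mem_univ g)
  have hnn : 0 ≤ ∑ j, F.v (co j (g₀ j)) := by
    refine Finset.sum_nonneg fun j _ => ?_
    rw [hco]
    beta_reduce
    rcases (ep p).symm j with g | i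
    · simp only [Sum.elim_inl]
      split_ifs
      · rw [AddValuation.map_one]
      · rw [AddValuation.map_zero]
        exact le_top
    · simp only [Sum.elim_inr]
      exact v_ratcast_nonneg F _
  have hp := pot_le F anti vec κ (fun f =>
    Sum.elim G (fun i => (r, g₀ f, Fin.castLE hm i)) ((ep p).symm f))
  have hdet : sdet (fun f => vec
        ((Sum.elim G (fun i => (r, g₀ f, Fin.castLE hm i)) ((ep p).symm f)).1,
        (Sum.elim G (fun i => (r, g₀ f, Fin.castLE hm i)) ((ep p).symm f)).2.1))
      (fun f => vec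
        (anti (Sum.elim G (fun i => (r, g₀ f, Fin.castLE hm i)) ((ep p).symm f)).1,
        (Sum.elim G (fun i => (r, g₀ f, Fin.castLE hm i)) ((ep p).symm f)).2.2)) =
      (Matrix.of fun j => z j (g₀ j)).det := by
    unfold sdet
    congr 2
    funext f
    rw [hz]
    show sprod _ _ = sprod _ _
    beta_reduce
    rcases (ep p).symm f with g | i <;> rfl
  rw [hdet] at hp
  rw [hS]
  calc pot F anti vec κ ≤ F.v (κ ^ (n + 1 + 1) * (Matrix.of fun j => z j (g₀ j)).det) := hp
    _ = F.v (κ ^ (n + 1 + 1)) + (0 + F.v (Matrix.of fun j => z j (g₀ j)).det) := by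
        rw [AddValuation.map_mul, zero_add]
    _ ≤ F.v (κ ^ (n + 1 + 1)) +
          ((∑ j, F.v (co j (g₀ j))) + F.v (Matrix.of fun j => z j (g₀ j)).det) := by
        gcongr
    _ ≤ F.v (κ ^ (n + 1 + 1)) + F.v (Matrix.of fun f => ∑ l, co f l • z f l).det := by
        gcongr
    _ = F.v (κ ^ (n + 1 + 1) * (Matrix.of fun f => ∑ l, co f l • z f l).det) := by
        rw [AddValuation.map_mul]

theorem ineqA {K : Type} [Field K] [Algebra ℚ K] (F : VF K) {V : Type} [Fintype V] {n m : ℕ}
    (hm : n + 1 ≤ m) (anti : V → V) {w : (Fin (n + 1) → V) → ℝ}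
    {vec : V × Fin m → Fin (n + 1) → K} {κ : K} (h : Good F w vec κ) (r : V)
    (ρ : Fin (n + 1) → K) (a : Fin m → ℚ) (p : Fin (n + 1))
    (hρ : ρ = fun i => ∑ l, algebraMap ℚ K (a l) * vec (r, l) i) (hp : ρ p ≠ 0)
    (G : Sym2 (Fin n) → V × Fin m × Fin m) :
    pot F anti vec κ ≤ (n + 1) • F.v (κ * ρ p) +
      F.v (sdet (fun f => el ρ p (vec ((G f).1, (G f).2.1)))
        (fun f => el ρ p (vec (anti (G f).1, (G f).2.2)))) +
      ((w fun _ => anti r : ℝ) : WithTop ℝ) := by
  classical
  have h1 := pot_le_comb (κ := κ) F hm anti r ρ a p hρ G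
  rw [sdet_el ρ p hp] at h1
  have hinj : Function.Injective (fun i : Fin (n + 1) => ((anti r, Fin.castLE hm i) : V × Fin m)) := by
    intro i j hij
    have h2 : Fin.castLE hm i = Fin.castLE hm j := congrArg Prod.snd hij
    exact Fin.castLE_injective hm h2
  have h3 := h.eq _ hinj
  have h2v : F.v (2 : K) = 0 := by
    have h4 := F.hq 2 (by norm_num)
    rwa [map_ofNat] at h4
  calc pot F anti vec κ ≤ _ := h1
    _ = F.v (2 * ((κ * ρ p) ^ (n + 1) *
          sdet (fun f => el ρ p (vec ((G f).1, (G f).2.1)))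
            (fun f => el ρ p (vec (anti (G f).1, (G f).2.2))) *
          (κ * br fun i => vec (anti r, Fin.castLE hm i)))) := by
        congr 1
        ring
    _ = _ := by
        rw [AddValuation.map_mul, h2v, zero_add, AddValuation.map_mul, AddValuation.map_mul,
          AddValuation.map_pow, h3]

end Pool.Agent.KServer.SY
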