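import Pool.Agent.Work.MP_fe875b_lc.SY.Row

/-!
MP_fe875b_lc, SY/InB (size M): the second block of the Laplace expansion.

Row `i` is `q(x_i) • Y_i + q(anti x_i) • X_i` with `X_i = vec (x_i, l_i)`, `Y_i = vec (anti x_i, l'_i)`, `(x_i, l_i, l'_i) = G i`. Use `det_rows_comb` with `Λ = Bool`
(`Fintype.sum_bool`): for a choice `g : Fin k → Bool` let `Z_i` be the chosen point (`anti x_i` resp. `x_i`); its coefficient is `q` of the antipodal token, of valuation
`≥ D r (anti Z_i)` (`anti (anti x) = x`), and `D r (anti Z) = Δ - D r Z = D Z (anti r)` (`comm`, `ha`). By `Good.le`: `v (κ * br Z) ≥ w Z`, and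
`w (fun _ => anti r) ≤ w Z + ∑ i, D (Z i) (anti r)` (`lip_sum`). Since `κ ≠ 0`, `v κ` is a real number and can be moved to the other side (or absorb `κ` in the coefficients of one row;
if `k = 0` the determinant is 1 and `Good.le` is the claim).
-/

set_option autoImplicit false

namespace Pool.Agent.KServer.SY

private theorem sub_le_aux (x t : ℝ) (y : WithTop ℝ) (h : (x : WithTop ℝ) ≤ (t : WithTop ℝ) + y) :
    ((x - t : ℝ) : WithTop ℝ) ≤ y := by
  induction y using WithTop.recTopCoe with
  | top => exact le_top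
  | coe b =>
    rw [← WithTop.coe_add, WithTop.coe_le_coe] at h
    rw [WithTop.coe_le_coe]
    linarith

theorem ineqB {K : Type} [Field K] [Algebra ℚ K] (F : VF K) {V : Type} {k m : ℕ}
    {D : V → V → ℝ} {anti : V → V} {Δ : ℝ} (hD : Metr D) (hai : ∀ x, anti (anti x) = x)
    (ha : ∀ x y, D x (anti y) = Δ - D x y) {w : (Fin k → V) → ℝ} (hw : QWF D w)
    {vec : V × Fin m → Fin k → K} {κ : K} (h : Good F w vec κ) (r : V) (q : V × Fin m → K)
    (hq : ∀ l : V × Fin m, ((D r l.1 : ℝ) : WithTop ℝ) ≤ F.v (q l))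
    (G : Fin k → V × Fin m × Fin m) :
    ((w fun _ => anti r : ℝ) : WithTop ℝ) ≤
      F.v (κ * br fun i => q ((G i).1, (G i).2.1) • vec (anti (G i).1, (G i).2.2) +
        q (anti (G i).1, (G i).2.2) • vec ((G i).1, (G i).2.1)) := by
  classical
  obtain ⟨t, ht⟩ : ∃ t : ℝ, F.v κ = (t : WithTop ℝ) := by
    have h1 : F.v κ ≠ ⊤ := (AddValuation.ne_top_iff F.v).2 h.κ0
    exact ⟨(F.v κ).untop h1, (WithTop.coe_untop _ h1).symm⟩
  have key : (((w fun _ => anti r) - t : ℝ) : WithTop ℝ) ≤
      F.v (Matrix.of fun j => ∑ l : Bool, (if l then q ((G j).1, (G j).2.1)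
        else q (anti (G j).1, (G j).2.2)) • (if l then vec (anti (G j).1, (G j).2.2)
        else vec ((G j).1, (G j).2.1))).det := by
    apply det_rows_comb F.v
    intro g
    set Z : Fin k → V × Fin m := fun i => if g i then (anti (G i).1, (G i).2.2)
      else ((G i).1, (G i).2.1) with hZ
    have hdet : (Matrix.of fun j => if g j then vec (anti (G j).1, (G j).2.2)
        else vec ((G j).1, (G j).2.1)).det = br fun i => vec (Z i) := by
      unfold br
      congr 1
      ext i j
      simp only [Matrix.of_apply, hZ]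
      split_ifs <;> rfl
    rw [hdet]
    have h1 := h.le Z
    rw [AddValuation.map_mul, ht] at h1
    have h2 := sub_le_aux _ _ _ h1
    have h3 : ((∑ i, D (Z i).1 (anti r) : ℝ) : WithTop ℝ) ≤
        ∑ j, F.v (if g j then q ((G j).1, (G j).2.1) else q (anti (G j).1, (G j).2.2)) := by
      rw [WithTop.coe_sum]
      apply Finset.sum_le_sum
      intro i _
      have h4 : D (Z i).1 (anti r) = D r (anti (Z i).1) := by
        rw [ha, ha, hD.comm]
      rw [h4]
      by_cases hg : g i = true
      · have h5 : (Z i).1 = anti (G i).1 := by simp [hZ, hg]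
        rw [if_pos hg, h5, hai]
        exact hq _
      · have h5 : (Z i).1 = (G i).1 := by simp [hZ, hg]
        rw [if_neg hg, h5]
        exact hq _
    have h6 := lip_sum hw (fun i => (Z i).1) (fun _ => anti r)
    calc (((w fun _ => anti r) - t : ℝ) : WithTop ℝ)
        ≤ ((∑ i, D (Z i).1 (anti r) + ((w fun i => (Z i).1) - t) : ℝ) : WithTop ℝ) := by
          rw [WithTop.coe_le_coe]
          linarith
      _ = ((∑ i, D (Z i).1 (anti r) : ℝ) : WithTop ℝ) +
          (((w fun i => (Z i).1) - t : ℝ) : WithTop ℝ) := WithTop.coe_add _ _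
      _ ≤ _ := add_le_add h3 h2
  have hrow : (Matrix.of fun j => ∑ l : Bool, (if l then q ((G j).1, (G j).2.1)
        else q (anti (G j).1, (G j).2.2)) • (if l then vec (anti (G j).1, (G j).2.2)
        else vec ((G j).1, (G j).2.1))).det =
      br fun i => q ((G i).1, (G i).2.1) • vec (anti (G i).1, (G i).2.2) +
        q (anti (G i).1, (G i).2.2) • vec ((G i).1, (G i).2.1) := by
    unfold br
    congr 1
    ext i j
    simp [Matrix.of_apply]
  rw [hrow] at key
  rw [AddValuation.map_mul, ht]
  calc ((w fun _ => anti r : ℝ) : WithTop ℝ)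
      = (t : WithTop ℝ) + (((w fun _ => anti r) - t : ℝ) : WithTop ℝ) := by
        rw [← WithTop.coe_add]
        congr 1
        ring
    _ ≤ _ := add_le_add_right key _

end Pool.Agent.KServer.SY
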