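import Pool.Agent.Work.MP_fe875b_lc.SY.Defs

/-!
MP_fe875b_lc, SY/Ini (size M): the initial state (all servers at one point, costs `d x`), `κ = 1`.

Choose an injection `a : V × Fin m → ℚ` (e.g. `Fintype.equivFin` and cast) and put `vec λ j = algebraMap ℚ K (a λ ^ (j : ℕ)) * F.τ (d λ.1)`.
`br (vec ∘ C)` : pull the factor `F.τ (d (C i).1)` out of the row `i` (`Matrix.det_mul_column` or `Matrix.det_mul_row`, or multilinearity) and the rest is
`algebraMap` of a Vandermonde determinant (`Matrix.det_vandermonde_ne_zero_iff`, `RingHom.map_det`), which is a nonzero rational number for injective `C`: valuation 0 (`F.hq`).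
So the valuation is `∑ i, d (C i).1`. Second claim: valuation of `algebraMap c` is `0` or `⊤`.
-/

set_option autoImplicit false

namespace Pool.Agent.KServer.SY

private theorem v_prod {K : Type} [Field K] [Algebra ℚ K] (F : VF K) {ι : Type} (s : Finset ι)
    (f : ι → ℝ) : F.v (∏ i ∈ s, F.τ (f i)) = ((∑ i ∈ s, f i : ℝ) : WithTop ℝ) := by
  classical
  induction s using Finset.induction_on with
  | empty => simp
  | insert a s ha ih =>
    rw [Finset.prod_insert ha, AddValuation.map_mul, ih, F.hτ, Finset.sum_insert ha,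
      WithTop.coe_add]

theorem init_good {K : Type} [Field K] [Algebra ℚ K] (F : VF K) {V : Type} [Fintype V] (k m : ℕ)
    (d : V → ℝ) : ∃ vec : V × Fin m → Fin k → K,
      Good F (fun X : Fin k → V => ∑ i, d (X i)) vec 1 ∧
        ∀ (l : V × Fin m) (j : Fin k), ((d l.1 : ℝ) : WithTop ℝ) ≤ F.v (vec l j) := by
  classical
  let e : V × Fin m ≃ Fin (Fintype.card (V × Fin m)) := Fintype.equivFin _
  let a : V × Fin m → ℚ := fun l => ((e l : ℕ) : ℚ)
  have ha : Function.Injective a := by
    intro x y hxy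
    have h1 : ((e x : ℕ) : ℚ) = ((e y : ℕ) : ℚ) := hxy
    have h2 : (e x : ℕ) = (e y : ℕ) := by exact_mod_cast h1
    exact e.injective (Fin.ext h2)
  refine ⟨fun l j => F.τ (d l.1) * algebraMap ℚ K (a l ^ (j : ℕ)), ⟨one_ne_zero, ?_⟩, ?_⟩
  · intro C hC
    have h1 : (br fun i => fun j : Fin k => F.τ (d (C i).1) * algebraMap ℚ K (a (C i) ^ (j : ℕ))) =
        (∏ i, F.τ (d (C i).1)) * algebraMap ℚ K (Matrix.vandermonde fun i => a (C i)).det := by
      have h2 := Matrix.det_mul_column (fun i => F.τ (d (C i).1))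
        (Matrix.of fun (i j : Fin k) => algebraMap ℚ K (a (C i) ^ (j : ℕ)))
      rw [RingHom.map_det]
      exact h2
    have h3 : (Matrix.vandermonde fun i => a (C i)).det ≠ 0 :=
      Matrix.det_vandermonde_ne_zero_iff.2 (ha.comp hC)
    rw [one_mul, h1, AddValuation.map_mul, F.hq _ h3, add_zero, v_prod]
  · intro l j
    rw [AddValuation.map_mul, F.hτ]
    have h1 : (0 : WithTop ℝ) ≤ F.v (algebraMap ℚ K (a l ^ (j : ℕ))) := by
      by_cases h0 : a l ^ (j : ℕ) = 0
      · rw [h0, map_zero, AddValuation.map_zero]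
        exact le_top
      · rw [F.hq _ h0]
    calc ((d l.1 : ℝ) : WithTop ℝ) = (d l.1 : ℝ) + 0 := (add_zero _).symm
      _ ≤ _ := by gcongr

end Pool.Agent.KServer.SY
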