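import Pool.Agent.Work.MP_fe875b_lc.SY.Avo

/-!
MP_fe875b_lc, SY/IniC (size M-L): the initial state for an arbitrary start.

`d i x` is the distance of the `i`-th start position from `x`. Induction on `k`, statement for all `d : Fin k → V → ℝ`. `k = 0`: `vec` is the empty vector, `br = 1`, the infimum over the
one-element type `Equiv.Perm (Fin 0)` of the empty sum is 0.
`k + 1`: apply the induction hypothesis to `d' i = d i.castSucc` (first `k` sources): `vec'`. Put `vec l = Fin.snoc (vec' l) (algebraMap ℚ K (c l) * F.τ (d (Fin.last k) l.1))`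
with coefficients `c` from `avoid`, `Λ = V × Fin m`, `J` = maps `C : Fin (k+1) → V × Fin m`, `b C l = ∑ i with C i = l, (-1)^(i+k) * (F.τ (d (last k) l.1) * br (fun j => vec' (C (i.succAbove j))))`.
Laplace expansion along the last column (`Matrix.det_succ_column _ (Fin.last k)`, `Fin.succAbove_last`): `br (vec ∘ C) = ∑ i, (-1)^(i+k) * vec (C i) (last k) * br (vec' ∘ C ∘ i.succAbove) = ∑ l, c l * b C l`.
For injective `C` the family `b C` is zero outside the range of `C`, and at `C i` it has valuation `d (last k) (C i).1 + ⨅ π' : Perm (Fin k), ∑ j, d' j (C (i.succAbove (π' j))).1`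
(`C ∘ i.succAbove` is injective). The minimum over `i` of these numbers is `⨅ π : Perm (Fin (k+1)), ∑ j, d j (C (π j)).1` (`i = π (last k)`; permutations with `π (last k) = i` correspond to `π'`:
prove both inequalities with explicit permutations, or use `Equiv.Perm.decomposeFin`-like equivalences).
-/

set_option autoImplicit false

namespace Pool.Agent.KServer.SY

private theorem v_sign {K : Type} [Field K] (v : AddValuation K (WithTop ℝ)) (n : ℕ) (x : K) :
    v ((-1) ^ n * x) = v x := by
  rcases neg_one_pow_eq_or K n with h | h
  · rw [h, one_mul]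
  · rw [h, neg_one_mul, AddValuation.map_neg]

private theorem v_alg {K : Type} [Field K] [Algebra ℚ K] (F : VF K) (c : ℚ) (x : K) :
    F.v x ≤ F.v (algebraMap ℚ K c * x) := by
  by_cases hc : c = 0
  · rw [hc, map_zero, zero_mul, AddValuation.map_zero]
    exact le_top
  · rw [AddValuation.map_mul, F.hq c hc, zero_add]

/-- extend a permutation -/
private theorem perm_up {k : ℕ} (i : Fin (k + 1)) (π' : Equiv.Perm (Fin k)) :
    ∃ π : Equiv.Perm (Fin (k + 1)), π (Fin.last k) = i ∧
      ∀ j : Fin k, π j.castSucc = i.succAbove (π' j) := by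
  have hinj : Function.Injective
      (Fin.snoc (α := fun _ => Fin (k + 1)) (fun j => i.succAbove (π' j)) i) := by
    intro a b hab
    induction a using Fin.lastCases with
    | last =>
      induction b using Fin.lastCases with
      | last => rfl
      | cast b =>
        rw [Fin.snoc_last, Fin.snoc_castSucc] at hab
        exact absurd hab.symm (Fin.succAbove_ne i _)
    | cast a =>
      induction b using Fin.lastCases with
      | last =>
        rw [Fin.snoc_last, Fin.snoc_castSucc] at hab
        exact absurd hab (Fin.succAbove_ne i _)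
      | cast b =>
        rw [Fin.snoc_castSucc, Fin.snoc_castSucc] at hab
        rw [π'.injective (Fin.succAbove_right_injective hab)]
  refine ⟨Equiv.ofBijective _ (Finite.injective_iff_bijective.1 hinj), ?_, ?_⟩
  · rw [Equiv.ofBijective_apply, Fin.snoc_last]
  · intro j
    rw [Equiv.ofBijective_apply, Fin.snoc_castSucc]

/-- restrict a permutation -/
private theorem perm_down {k : ℕ} (π : Equiv.Perm (Fin (k + 1))) :
    ∃ π' : Equiv.Perm (Fin k), ∀ j : Fin k,
      π j.castSucc = (π (Fin.last k)).succAbove (π' j) := by
  have h1 : ∀ j : Fin k, ∃ a, (π (Fin.last k)).succAbove a = π j.castSucc := by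
    intro j
    apply Fin.exists_succAbove_eq
    intro h
    exact absurd (π.injective h) (Fin.castSucc_lt_last j).ne
  choose g hg using h1
  have hinj : Function.Injective g := by
    intro a b hab
    have h2 : π a.castSucc = π b.castSucc := by rw [← hg, ← hg, hab]
    exact Fin.castSucc_injective k (π.injective h2)
  refine ⟨Equiv.ofBijective g (Finite.injective_iff_bijective.1 hinj), fun j => ?_⟩
  rw [Equiv.ofBijective_apply, hg]

theorem init_goodC {K : Type} [Field K] [Algebra ℚ K] (F : VF K) {V : Type} [Fintype V] (k m : ℕ)
    (d : Fin k → V → ℝ) : ∃ vec : V × Fin m → Fin k → K,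
      Good F (fun X : Fin k → V => ⨅ π : Equiv.Perm (Fin k), ∑ i, d i (X (π i))) vec 1 ∧
        ∀ (l : V × Fin m) (j : Fin k), ((d j l.1 : ℝ) : WithTop ℝ) ≤ F.v (vec l j) := by
  classical
  induction k with
  | zero =>
    refine ⟨fun _ i => i.elim0, ⟨one_ne_zero, fun C _ => ?_⟩, fun _ j => j.elim0⟩
    have h1 : br (fun i : Fin 0 => (fun _ i => i.elim0 : V × Fin m → Fin 0 → K) (C i)) = 1 :=
      Matrix.det_isEmpty
    rw [h1, mul_one, AddValuation.map_one]
    simp
  | succ k ih =>
    obtain ⟨vec', hG, hv⟩ := ih (fun i => d i.castSucc)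
    obtain ⟨c, hc⟩ := avoid F (Λ := V × Fin m) (J := Fin (k + 1) → V × Fin m)
      (fun C l => ∑ i : Fin (k + 1), if C i = l then
        (-1) ^ ((i : ℕ) + k) * (F.τ (d (Fin.last k) l.1) *
          br (fun j => vec' (C (i.succAbove j)))) else 0)
    -- expansion along the last column
    have hexp : ∀ C : Fin (k + 1) → V × Fin m,
        br (fun i => (Fin.snoc (α := fun _ => K) (vec' (C i))
          (algebraMap ℚ K (c (C i)) * F.τ (d (Fin.last k) (C i).1)) : Fin (k + 1) → K)) =
        ∑ l, algebraMap ℚ K (c l) * ∑ i : Fin (k + 1), if C i = l then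
          (-1) ^ ((i : ℕ) + k) * (F.τ (d (Fin.last k) l.1) *
            br (fun j => vec' (C (i.succAbove j)))) else 0 := by
      intro C
      unfold br
      rw [Matrix.det_succ_column _ (Fin.last k)]
      simp_rw [Finset.mul_sum]
      rw [Finset.sum_comm]
      refine Finset.sum_congr rfl fun i _ => ?_
      rw [Finset.sum_eq_single (C i)]
      · rw [if_pos rfl, Matrix.of_apply, Fin.snoc_last, Fin.val_last]
        have h1 : (Matrix.of (fun i => (Fin.snoc (α := fun _ => K) (vec' (C i))
            (algebraMap ℚ K (c (C i)) * F.τ (d (Fin.last k) (C i).1)) : Fin (k + 1) → K))).submatrix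
            i.succAbove (Fin.last k).succAbove =
            Matrix.of (fun j => vec' (C (i.succAbove j))) := by
          refine Matrix.ext fun a b => ?_
          rw [Matrix.submatrix_apply, Matrix.of_apply, Matrix.of_apply, Fin.succAbove_last,
            Fin.snoc_castSucc]
        rw [h1]
        ring
      · intro l _ hl
        rw [if_neg (fun h => hl h.symm), mul_zero]
      · intro h
        exact absurd (Finset.mem_univ _) h
    refine ⟨fun l => Fin.snoc (α := fun _ => K) (vec' l)
      (algebraMap ℚ K (c l) * F.τ (d (Fin.last k) l.1)), ⟨one_ne_zero, fun C hC => ?_⟩, ?_⟩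
    · rw [one_mul, hexp C]
      have hcC := hc C
      beta_reduce at hcC
      rw [hcC]
      -- the valuation of the term of `C i`
      have hval : ∀ i : Fin (k + 1), F.v (∑ i' : Fin (k + 1), if C i' = C i then
          (-1) ^ ((i' : ℕ) + k) * (F.τ (d (Fin.last k) (C i).1) *
            br (fun j => vec' (C (i'.succAbove j)))) else 0) =
          ((d (Fin.last k) (C i).1 + ⨅ π' : Equiv.Perm (Fin k),
            ∑ j, d j.castSucc (C (i.succAbove (π' j))).1 : ℝ) : WithTop ℝ) := by
        intro i
        rw [Finset.sum_eq_single i]
        · rw [if_pos rfl, v_sign, AddValuation.map_mul, F.hτ]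
          have h2 := hG.eq (fun j => C (i.succAbove j))
            (fun a b hab => Fin.succAbove_right_injective (hC hab))
          rw [one_mul] at h2
          rw [h2, ← WithTop.coe_add]
        · intro i' _ hi'
          rw [if_neg (fun h => hi' (hC h))]
        · intro h
          exact absurd (Finset.mem_univ _) h
      apply le_antisymm
      · obtain ⟨π, hπ⟩ := exists_eq_ciInf_of_finite
          (f := fun π : Equiv.Perm (Fin (k + 1)) => ∑ i, d i (C (π i)).1)
        rw [← hπ]
        obtain ⟨π', hπ'⟩ := perm_down π
        refine (Finset.inf_le (Finset.mem_univ (C (π (Fin.last k))))).trans ?_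
        rw [hval, WithTop.coe_le_coe, Fin.sum_univ_castSucc, add_comm]
        refine add_le_add ?_ le_rfl
        have h3 : ⨅ π' : Equiv.Perm (Fin k),
            ∑ j : Fin k, d j.castSucc (C ((π (Fin.last k)).succAbove (π' j))).1 ≤
            ∑ j : Fin k, d j.castSucc (C ((π (Fin.last k)).succAbove (π' j))).1 :=
          ciInf_le (Set.finite_range _).bddBelow π'
        refine h3.trans (le_of_eq ?_)
        refine Finset.sum_congr rfl fun j _ => ?_
        rw [hπ' j]
      · refine Finset.le_inf fun l _ => ?_
        by_cases hl : ∃ i, C i = l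
        · obtain ⟨i, rfl⟩ := hl
          rw [hval, WithTop.coe_le_coe]
          obtain ⟨π', hπ'⟩ := exists_eq_ciInf_of_finite
            (f := fun π' : Equiv.Perm (Fin k) => ∑ j, d j.castSucc (C (i.succAbove (π' j))).1)
          rw [← hπ']
          obtain ⟨π, hπ1, hπ2⟩ := perm_up i π'
          have h3 : ⨅ π : Equiv.Perm (Fin (k + 1)), ∑ i, d i (C (π i)).1 ≤
              ∑ i, d i (C (π i)).1 := ciInf_le (Set.finite_range _).bddBelow π
          refine h3.trans (le_of_eq ?_)
          rw [Fin.sum_univ_castSucc, hπ1, add_comm]
          congr 1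
          refine Finset.sum_congr rfl fun j _ => ?_
          rw [hπ2]
        · have h4 : (∑ i' : Fin (k + 1), if C i' = l then
              (-1) ^ ((i' : ℕ) + k) * (F.τ (d (Fin.last k) l.1) *
                br (fun j => vec' (C (i'.succAbove j)))) else (0 : K)) = 0 := by
            refine Finset.sum_eq_zero fun i' _ => ?_
            rw [if_neg (fun h => hl ⟨i', h⟩)]
          rw [h4, AddValuation.map_zero]
          exact le_top
    · intro l j
      induction j using Fin.lastCases with
      | last =>
        beta_reduce
        rw [Fin.snoc_last]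
        refine le_trans ?_ (v_alg F (c l) _)
        rw [F.hτ]
      | cast j =>
        beta_reduce
        rw [Fin.snoc_castSucc]
        exact hv l j

end Pool.Agent.KServer.SY
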