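import Pool.Agent.Work.MP_fe875b_lc.SY.Blk

/-!
MP_fe875b_lc, SY/LapS (size M): Laplace expansion (valuation form) in the symmetric square of `U ⊕ K e`.

Vectors `X f = ins p (qx f) (x f)`, `Y f = ins p (qy f) (y f)`, `f ∈ Sym2 (Fin (n+1))`. Reindex rows and columns by `ep p` (`Matrix.det_submatrix_equiv_self`) and use `val_det_blocks`
with `R1 = Sym2 (Fin n)`, `R2 = Fin (n+1)`. Column `inl s`, `s = s(a,b)`: coordinate `Sym2.map p.succAbove s(a,b)` of `sprod (X f) (Y f)` is `sprod (x f) (y f) s(a,b)` (`ins_succ`).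
Column `inr i`: coordinate `s(p,i)`: `X_p Y_i + X_i Y_p = qx f * (Y f) i + qy f * (X f) i` (`ins_self`).
-/

set_option autoImplicit false

namespace Pool.Agent.KServer.SY

theorem val_sdet_ins {K : Type} [Field K] (v : AddValuation K (WithTop ℝ)) {n : ℕ} (p : Fin (n + 1))
    (x y : Sym2 (Fin (n + 1)) → Fin n → K) (qx qy : Sym2 (Fin (n + 1)) → K) (a b : WithTop ℝ)
    (ha : ∀ g : Sym2 (Fin n) → Sym2 (Fin (n + 1)),
      a ≤ v (sdet (fun s => x (g s)) (fun s => y (g s))))
    (hb : ∀ g : Fin (n + 1) → Sym2 (Fin (n + 1)),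
      b ≤ v (br fun i => qx (g i) • ins p (qy (g i)) (y (g i)) +
        qy (g i) • ins p (qx (g i)) (x (g i)))) :
    a + b ≤ v (sdet (fun f => ins p (qx f) (x f)) (fun f => ins p (qy f) (y f))) := by
  set M : Matrix (Sym2 (Fin (n + 1))) (Sym2 (Fin (n + 1))) K :=
    Matrix.of fun f => sprod (ins p (qx f) (x f)) (ins p (qy f) (y f)) with hM
  have h1 : (M.submatrix (ep p) (ep p)).det = M.det := Matrix.det_submatrix_equiv_self (ep p) M
  show a + b ≤ v M.det
  rw [← h1]
  refine val_det_blocks v _ a b (fun g => ?_) (fun g => ?_)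
  · have h2 : ((M.submatrix (ep p) (ep p)).submatrix g Sum.inl) =
        Matrix.of fun s => sprod (x (ep p (g s))) (y (ep p (g s))) := by
      refine Matrix.ext fun s t => ?_
      induction t with
      | _ i j =>
        show sprod (ins p (qx (ep p (g s))) (x (ep p (g s))))
          (ins p (qy (ep p (g s))) (y (ep p (g s)))) s(p.succAbove i, p.succAbove j) =
          sprod (x (ep p (g s))) (y (ep p (g s))) s(i, j)
        rw [sprod_mk, sprod_mk, ins_succ, ins_succ, ins_succ, ins_succ]
    rw [h2]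
    exact ha fun s => ep p (g s)
  · have h2 : ((M.submatrix (ep p) (ep p)).submatrix g Sum.inr) =
        Matrix.of fun i => qx (ep p (g i)) • ins p (qy (ep p (g i))) (y (ep p (g i))) +
          qy (ep p (g i)) • ins p (qx (ep p (g i))) (x (ep p (g i))) := by
      refine Matrix.ext fun s j => ?_
      show sprod (ins p (qx (ep p (g s))) (x (ep p (g s))))
        (ins p (qy (ep p (g s))) (y (ep p (g s)))) s(p, j) =
        qx (ep p (g s)) * ins p (qy (ep p (g s))) (y (ep p (g s))) j +
          qy (ep p (g s)) * ins p (qx (ep p (g s))) (x (ep p (g s))) j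
      rw [sprod_mk, ins_self, ins_self]
      ring
    rw [h2]
    exact hb fun i => ep p (g i)

end Pool.Agent.KServer.SY
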