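import Pool.Agent.Work.MP_fe875b_lc.SY.LapS
import Pool.Agent.Work.MP_fe875b_lc.SY.InA
import Pool.Agent.Work.MP_fe875b_lc.SY.InB

/-!
MP_fe875b_lc, SY/Mst (size M): the potential inequality for one request.

`κ' = κ * ρ p ≠ 0`, `c = v κ'` a real number. Let `a₀` be the infimum over `G₁ : Sym2 (Fin n) → V × Fin m × Fin m` of the valuations of
`sdet (el ρ p ∘ vec ..) (el ρ p ∘ vec ..)` (a `Finset.inf` over a finite nonempty type: `Finset.exists_mem_eq_inf`; nonempty because `r : V`, `m > 0`).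
`ineqA`: `pot F anti vec κ ≤ (n+1) • c + a₀ + w (anti r ..)`. For the new potential use `le_pot`: for a family `G` the determinant is `sdet (ins p (q ..) (el ρ p (vec ..))) ..`; `val_sdet_ins` with
`a = a₀` and `b = w' (anti r ..) - c` (a real number), hypothesis `hb` from `ineqB` for the new state (`w' = upd D w r`, `QWF` by `qwf_upd`): valuation of the new `sdet` is `≥ a₀ + b`. Times `κ'^(n+2)`:
`≥ (n+2) • c + a₀ + w' - c = (n+1) • c + a₀ + w'`. Work in `WithTop ℝ` (cases `a₀ = ⊤` or real).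
-/

set_option autoImplicit false

namespace Pool.Agent.KServer.SY

theorem main_step {K : Type} [Field K] [Algebra ℚ K] (F : VF K) {V : Type} [Fintype V] {n m : ℕ}
    (hm : n + 1 ≤ m) {D : V → V → ℝ} {anti : V → V} {Δ : ℝ} (hD : Metr D)
    (hai : ∀ x, anti (anti x) = x) (ha : ∀ x y, D x (anti y) = Δ - D x y)
    {w : (Fin (n + 1) → V) → ℝ} (hw : QWF D w)
    {vec : V × Fin m → Fin (n + 1) → K} {κ : K} (h : Good F w vec κ) (r : V)
    (ρ : Fin (n + 1) → K) (a : Fin m → ℚ) (p : Fin (n + 1)) (q : V × Fin m → K)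
    (hρ : ρ = fun i => ∑ l, algebraMap ℚ K (a l) * vec (r, l) i) (hp : ρ p ≠ 0)
    (hq : ∀ l : V × Fin m, ((D r l.1 : ℝ) : WithTop ℝ) ≤ F.v (q l))
    (h' : Good F (upd D w r) (fun l => ins p (q l) (el ρ p (vec l))) (κ * ρ p)) :
    pot F anti vec κ + ((upd D w r fun _ => anti r : ℝ) : WithTop ℝ) ≤
      pot F anti (fun l => ins p (q l) (el ρ p (vec l))) (κ * ρ p) +
        ((w fun _ => anti r : ℝ) : WithTop ℝ) := by
  classical
  set κ' : K := κ * ρ p with hκ'
  set w' : (Fin (n + 1) → V) → ℝ := upd D w r with hw'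
  have hκ0 : κ' ≠ 0 := mul_ne_zero h.κ0 hp
  obtain ⟨c, hc⟩ : ∃ c : ℝ, (c : WithTop ℝ) = F.v κ' := by
    refine WithTop.ne_top_iff_exists.1 fun h0 => hκ0 ?_
    exact (AddValuation.top_iff F.v).1 h0
  set S : (Sym2 (Fin n) → V × Fin m × Fin m) → WithTop ℝ := fun G =>
    F.v (sdet (fun f => el ρ p (vec ((G f).1, (G f).2.1)))
      (fun f => el ρ p (vec (anti (G f).1, (G f).2.2)))) with hS
  have hne : (Finset.univ : Finset (Sym2 (Fin n) → V × Fin m × Fin m)).Nonempty :=
    ⟨fun _ => (r, ⟨0, by omega⟩, ⟨0, by omega⟩), Finset.mem_univ _⟩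
  obtain ⟨G₀, -, hG₀⟩ := Finset.exists_mem_eq_inf Finset.univ hne S
  set a₀ : WithTop ℝ := Finset.univ.inf S with ha₀
  have hle : ∀ G, a₀ ≤ S G := fun G => Finset.inf_le (Finset.mem_univ G)
  have hA : pot F anti vec κ ≤ (n + 1) • (c : WithTop ℝ) + a₀ +
      ((w fun _ => anti r : ℝ) : WithTop ℝ) := by
    have h1 := ineqA F hm anti h r ρ a p hρ hp G₀
    rw [← hκ', ← hc] at h1
    rw [hG₀]
    exact h1
  have hqw : QWF D w' := qwf_upd (Nat.succ_pos n) hD hw r
  have hB : (n + 1) • (c : WithTop ℝ) + a₀ + ((w' fun _ => anti r : ℝ) : WithTop ℝ) ≤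
      pot F anti (fun l => ins p (q l) (el ρ p (vec l))) κ' := by
    refine le_pot F anti _ κ' _ fun G => ?_
    have h2 := val_sdet_ins F.v p
      (fun f => el ρ p (vec ((G f).1, (G f).2.1)))
      (fun f => el ρ p (vec (anti (G f).1, (G f).2.2)))
      (fun f => q ((G f).1, (G f).2.1)) (fun f => q (anti (G f).1, (G f).2.2))
      a₀ (((w' fun _ => anti r) - c : ℝ) : WithTop ℝ) (fun g => hle fun s => G (g s))
      (fun g => by
        have h3 := ineqB F hD hai ha hqw h' r q hq fun i => G (g i)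
        rw [AddValuation.map_mul, ← hc] at h3
        have h4 : ((w' fun _ => anti r : ℝ) : WithTop ℝ) =
            (c : WithTop ℝ) + (((w' fun _ => anti r) - c : ℝ) : WithTop ℝ) := by
          rw [← WithTop.coe_add]
          congr 1
          ring
        rw [h4] at h3
        exact (WithTop.add_le_add_iff_left WithTop.coe_ne_top).1 h3)
    rw [AddValuation.map_mul, AddValuation.map_pow, ← hc]
    refine le_trans ?_ (add_le_add le_rfl h2)
    have h5 : (n + 1 + 1) • (c : WithTop ℝ) + (a₀ + (((w' fun _ => anti r) - c : ℝ) : WithTop ℝ)) =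
        (n + 1) • (c : WithTop ℝ) + a₀ + ((w' fun _ => anti r : ℝ) : WithTop ℝ) := by
      have h6 : ((w' fun _ => anti r : ℝ) : WithTop ℝ) =
          (c : WithTop ℝ) + (((w' fun _ => anti r) - c : ℝ) : WithTop ℝ) := by
        rw [← WithTop.coe_add]
        congr 1
        ring
      rw [h6, succ_nsmul]
      abel
    exact h5.ge
  calc pot F anti vec κ + ((w' fun _ => anti r : ℝ) : WithTop ℝ)
      ≤ ((n + 1) • (c : WithTop ℝ) + a₀ + ((w fun _ => anti r : ℝ) : WithTop ℝ)) +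
        ((w' fun _ => anti r : ℝ) : WithTop ℝ) := add_le_add hA le_rfl
    _ = ((n + 1) • (c : WithTop ℝ) + a₀ + ((w' fun _ => anti r : ℝ) : WithTop ℝ)) +
        ((w fun _ => anti r : ℝ) : WithTop ℝ) := by abel
    _ ≤ _ := add_le_add hB le_rfl

end Pool.Agent.KServer.SY
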