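import Pool.Agent.Work.MP_fe875b_lc.SY.Avo
import Pool.Agent.Work.MP_fe875b_lc.SY.Elm

/-!
MP_fe875b_lc, SY/Stp (size M-L): the next state after a request `r`.

(1) `avoid` with `Λ = Fin m`, `J = (Fin (n+1) → V × Fin m) × Fin (n+1)`, `b (C, i) l = κ * br (Function.update (fun j => vec (C j)) i (vec (r, l)))`: coefficients `a`,
`ρ i = ∑ l, a l * vec (r, l) i`. The bracket is linear in the row `i`: `κ * br (update (vec ∘ C) i ρ) = ∑ l, a l * b (C,i) l` (`Matrix.det_updateRow_sum`, or `Matrix.detRowAlternating.map_sum`-type lemmas).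
For injective `C`: `v (κ * br (update (vec ∘ C) i ρ)) = w (update (fun j => (C j).1) i r)` =: (B). Indeed `update (vec ∘ C) i (vec (r,l)) = vec ∘ (update C i (r,l))`, by `Good.le` every
term is `≥` the right side, and there is `l` with `(r,l) ≠ C j` for all `j ≠ i` (pigeonhole, `n < m`: at most `n` forbidden labels), then `update C i (r,l)` is injective and `Good.eq` gives equality.
(`fun j => (update C i (r,l) j).1 = update (fun j => (C j).1) i r`.)
`ρ ≠ 0`: (B) for some injective `C` (exists: `j ↦ (r, label j)`, `n + 1 ≤ m`) has a finite value, so the row `ρ` is not zero. Choose `p` with `ρ p ≠ 0`.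
(2) `avoid` with `Λ = V × Fin m`, `J` = all maps `C : Fin (n+1) → V × Fin m`, `b C l = ∑ i with C i = l, τ (D r l.1) * (κ * br (update (vec ∘ C) i ρ))`: coefficients `c`,
`q l = c l * τ (D r l.1)`, valuation `≥ D r l.1`.
`br_ins` with `x = vec ∘ C`, `q ∘ C`, `r = ρ`: `(κ * ρ p) * br (ins p (q (C i)) (el ρ p (vec (C i)))) = ∑ i, q (C i) * (κ * br (update (vec ∘ C) i ρ)) = ∑ l, c l * b C l`.
For injective `C` the valuation is the infimum over `l` of `v (b C l)`; `b C l = 0` (value `⊤`) if `l` is not in the range and for `l = C i` it is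
`D r (C i).1 + w (update _ i r)` (by (B)): the infimum is `upd D w r (fun i => (C i).1)` (a minimum over the finite nonempty type `Fin (n+1)`: `exists_upd`, `upd_le`).
`κ * ρ p ≠ 0`.
-/

set_option autoImplicit false

namespace Pool.Agent.KServer.SY

private theorem br_update_sum {K : Type} [Field K] {n : ℕ} {Λ : Type} [Fintype Λ]
    (x : Fin n → Fin n → K) (i : Fin n) (a : Λ → K) (y : Λ → Fin n → K) :
    br (Function.update x i (fun t => ∑ l, a l * y l t)) =
      ∑ l, a l * br (Function.update x i (y l)) := by
  have h1 : (fun t => ∑ l, a l * y l t) = ∑ l, a l • y l := by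
    funext t
    simp [Finset.sum_apply]
  have h2 : ∀ z : Fin n → K, br (Function.update x i z) =
      (Matrix.detRowAlternating (R := K) (n := Fin n)).toMultilinearMap.toLinearMap x i z := by
    intro z
    rfl
  rw [h1, h2, map_sum]
  refine Finset.sum_congr rfl fun l _ => ?_
  rw [h2, map_smul, smul_eq_mul]

private theorem upd_vec {K : Type} [Field K] {V : Type} {n m : ℕ} (vec : V × Fin m → Fin n → K)
    (C : Fin n → V × Fin m) (i : Fin n) (l : V × Fin m) :
    Function.update (fun j => vec (C j)) i (vec l) = fun j => vec (Function.update C i l j) := by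
  funext j
  by_cases hj : j = i
  · subst hj
    simp
  · simp [hj]

private theorem upd_fst {V : Type} {n m : ℕ}
    (C : Fin n → V × Fin m) (i : Fin n) (l : V × Fin m) :
    (fun j => (Function.update C i l j).1) = Function.update (fun j => (C j).1) i l.1 := by
  funext j
  by_cases hj : j = i
  · subst hj
    simp
  · simp [hj]

private theorem free_label {V : Type} {n m : ℕ} (hm : n + 1 ≤ m) (C : Fin (n + 1) → V × Fin m)
    (i : Fin (n + 1)) (r : V) : ∃ l : Fin m, ∀ j, j ≠ i → C j ≠ (r, l) := by
  by_contra hcon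
  push Not at hcon
  choose g hg1 hg2 using hcon
  have hinj : Function.Injective (fun l => (⟨g l, hg1 l⟩ : {j : Fin (n + 1) // j ≠ i})) := by
    intro l l' hll
    have h1 : g l = g l' := congrArg Subtype.val hll
    have h2 : (r, l) = (r, l') := by rw [← hg2 l, ← hg2 l', h1]
    exact (Prod.mk.inj h2).2
  have hcard := Fintype.card_le_of_injective _ hinj
  rw [Fintype.card_fin, Fintype.card_subtype_compl, Fintype.card_fin,
    Fintype.card_subtype_eq] at hcard
  omega

private theorem upd_inj {V : Type} {n m : ℕ} {C : Fin n → V × Fin m} (hC : Function.Injective C)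
    (i : Fin n) (l : V × Fin m) (hl : ∀ j, j ≠ i → C j ≠ l) :
    Function.Injective (Function.update C i l) := by
  intro a b hab
  by_cases ha : a = i
  · by_cases hb : b = i
    · rw [ha, hb]
    · exfalso
      rw [ha, Function.update_self, Function.update_of_ne hb] at hab
      exact hl b hb hab.symm
  · by_cases hb : b = i
    · exfalso
      rw [hb, Function.update_self, Function.update_of_ne ha] at hab
      exact hl a ha hab
    · rw [Function.update_of_ne ha, Function.update_of_ne hb] at hab
      exact hC hab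

theorem step_good {K : Type} [Field K] [Algebra ℚ K] (F : VF K) {V : Type} [Fintype V] {n m : ℕ}
    (hm : n + 1 ≤ m) (D : V → V → ℝ) {w : (Fin (n + 1) → V) → ℝ}
    {vec : V × Fin m → Fin (n + 1) → K} {κ : K} (h : Good F w vec κ) (r : V) :
    ∃ (ρ : Fin (n + 1) → K) (a : Fin m → ℚ) (p : Fin (n + 1)) (q : V × Fin m → K),
      (ρ = fun i => ∑ l, algebraMap ℚ K (a l) * vec (r, l) i) ∧ ρ p ≠ 0 ∧
      (∀ l : V × Fin m, ((D r l.1 : ℝ) : WithTop ℝ) ≤ F.v (q l)) ∧
      Good F (upd D w r) (fun l => ins p (q l) (el ρ p (vec l))) (κ * ρ p) := by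
  classical
  obtain ⟨a, ha⟩ := avoid F (J := (Fin (n + 1) → V × Fin m) × Fin (n + 1)) (Λ := Fin m)
    (fun Ci l => κ * br (Function.update (fun j => vec (Ci.1 j)) Ci.2 (vec (r, l))))
  obtain ⟨ρ, hρ⟩ : ∃ ρ : Fin (n + 1) → K,
      ρ = fun i => ∑ l, algebraMap ℚ K (a l) * vec (r, l) i := ⟨_, rfl⟩
  have hB : ∀ C : Fin (n + 1) → V × Fin m, Function.Injective C → ∀ i : Fin (n + 1),
      F.v (κ * br (Function.update (fun j => vec (C j)) i ρ)) =
        ((w (Function.update (fun j => (C j).1) i r) : ℝ) : WithTop ℝ) := by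
    intro C hC i
    have h1 : κ * br (Function.update (fun j => vec (C j)) i ρ) =
        ∑ l, algebraMap ℚ K (a l) *
          (κ * br (Function.update (fun j => vec (C j)) i (vec (r, l)))) := by
      rw [hρ, br_update_sum (fun j => vec (C j)) i (fun l => algebraMap ℚ K (a l))
        (fun l => vec (r, l)), Finset.mul_sum]
      refine Finset.sum_congr rfl fun l _ => ?_
      ring
    rw [h1, ha (C, i)]
    apply le_antisymm
    · obtain ⟨l, hl⟩ := free_label hm C i r
      refine le_trans (Finset.inf_le (Finset.mem_univ l)) ?_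
      have h2 := h.eq (Function.update C i (r, l)) (upd_inj hC i (r, l) hl)
      rw [upd_fst] at h2
      show F.v (κ * br (Function.update (fun j => vec (C j)) i (vec (r, l)))) ≤ _
      rw [upd_vec]
      exact h2.le
    · refine Finset.le_inf fun l _ => ?_
      have h2 := h.le (Function.update C i (r, l))
      rw [upd_fst] at h2
      show _ ≤ F.v (κ * br (Function.update (fun j => vec (C j)) i (vec (r, l))))
      rw [upd_vec]
      exact h2
  have hρ0 : ρ ≠ 0 := by
    intro h0
    have hinj : Function.Injective (fun j : Fin (n + 1) => ((r, Fin.castLE hm j) : V × Fin m)) := by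
      intro x y hxy
      exact Fin.castLE_injective hm (Prod.mk.inj hxy).2
    have h1 := hB _ hinj 0
    have h2 : br (Function.update (fun j : Fin (n + 1) => vec (r, Fin.castLE hm j)) 0 ρ) = 0 := by
      refine Matrix.det_eq_zero_of_row_eq_zero 0 fun j => ?_
      show Function.update (fun j : Fin (n + 1) => vec (r, Fin.castLE hm j)) 0 ρ 0 j = 0
      rw [Function.update_self, h0]
      rfl
    rw [h2, mul_zero, AddValuation.map_zero] at h1
    exact (WithTop.coe_ne_top h1.symm)
  obtain ⟨p, hp⟩ := Function.ne_iff.1 hρ0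
  have hp' : ρ p ≠ 0 := hp
  obtain ⟨c, hc⟩ := avoid F (J := Fin (n + 1) → V × Fin m) (Λ := V × Fin m)
    (fun C l => ∑ i, if C i = l then
      F.τ (D r l.1) * (κ * br (Function.update (fun j => vec (C j)) i ρ)) else 0)
  refine ⟨ρ, a, p, fun l => algebraMap ℚ K (c l) * F.τ (D r l.1), hρ, hp', ?_, ?_, ?_⟩
  · intro l
    show _ ≤ F.v (algebraMap ℚ K (c l) * F.τ (D r l.1))
    by_cases h0 : c l = 0
    · rw [h0, map_zero, zero_mul, AddValuation.map_zero]
      exact le_top
    · rw [AddValuation.map_mul, F.hq _ h0, zero_add, F.hτ]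
  · exact mul_ne_zero h.κ0 hp'
  · intro C hC
    have h1 : κ * ρ p * br (fun i => ins p (algebraMap ℚ K (c (C i)) * F.τ (D r (C i).1))
        (el ρ p (vec (C i)))) = ∑ l, algebraMap ℚ K (c l) * ∑ i, if C i = l then
          F.τ (D r l.1) * (κ * br (Function.update (fun j => vec (C j)) i ρ)) else 0 := by
      rw [mul_assoc, br_ins ρ p hp' (fun i => vec (C i))
        (fun i => algebraMap ℚ K (c (C i)) * F.τ (D r (C i).1))]
      simp only [Finset.mul_sum]
      rw [Finset.sum_comm]
      refine Finset.sum_congr rfl fun i _ => ?_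
      rw [Finset.sum_eq_single (C i)]
      · rw [if_pos rfl]
        ring
      · intro l _ hl
        rw [if_neg (Ne.symm hl), mul_zero]
      · intro h2
        exact absurd (Finset.mem_univ _) h2
    have hb : ∀ i, (∑ i', if C i' = C i then
        F.τ (D r (C i).1) * (κ * br (Function.update (fun j => vec (C j)) i' ρ)) else 0) =
        F.τ (D r (C i).1) * (κ * br (Function.update (fun j => vec (C j)) i ρ)) := by
      intro i
      rw [Finset.sum_eq_single i]
      · rw [if_pos rfl]
      · intro i' _ hi'
        rw [if_neg fun h2 => hi' (hC h2)]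
      · intro h2
        exact absurd (Finset.mem_univ _) h2
    have hv : ∀ i, F.v (F.τ (D r (C i).1) *
        (κ * br (Function.update (fun j => vec (C j)) i ρ))) =
        ((w (Function.update (fun j => (C j).1) i r) + D r (C i).1 : ℝ) : WithTop ℝ) := by
      intro i
      rw [AddValuation.map_mul, F.hτ, hB C hC i, ← WithTop.coe_add, add_comm]
    show F.v (κ * ρ p * br (fun i => ins p (algebraMap ℚ K (c (C i)) * F.τ (D r (C i).1))
        (el ρ p (vec (C i))))) = _
    rw [h1, hc C]
    apply le_antisymm
    · obtain ⟨i, hi⟩ := exists_upd (Nat.succ_pos n) D w r (fun i => (C i).1)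
      refine le_trans (Finset.inf_le (Finset.mem_univ (C i))) ?_
      show F.v (∑ i', if C i' = C i then
        F.τ (D r (C i).1) * (κ * br (Function.update (fun j => vec (C j)) i' ρ)) else 0) ≤ _
      rw [hb i, hv i, hi]
    · refine Finset.le_inf fun l _ => ?_
      by_cases hl : ∃ i, C i = l
      · obtain ⟨i, rfl⟩ := hl
        show _ ≤ F.v (∑ i', if C i' = C i then
          F.τ (D r (C i).1) * (κ * br (Function.update (fun j => vec (C j)) i' ρ)) else 0)
        rw [hb i, hv i]
        exact WithTop.coe_le_coe.2 (upd_le D w r (fun i => (C i).1) i)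
      · have h2 : (∑ i, if C i = l then
            F.τ (D r l.1) * (κ * br (Function.update (fun j => vec (C j)) i ρ)) else 0) = 0 := by
          refine Finset.sum_eq_zero fun i _ => ?_
          rw [if_neg fun h3 => hl ⟨i, h3⟩]
        show _ ≤ F.v (∑ i, if C i = l then
          F.τ (D r l.1) * (κ * br (Function.update (fun j => vec (C j)) i ρ)) else 0)
        rw [h2, AddValuation.map_zero]
        exact le_top

end Pool.Agent.KServer.SY
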