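import Pool.Agent.Work.MP_fe875b_lc.SY.Ck

/-!
MP_fe875b_lc, SY/Upp (size M): upper bound for the potential (step (3) of the paper proof).

Labels: `y i = vec (X i, label i)`, `Y i j = vec (anti (X i), label (k + j))`, `i, j < k = n + 1`, `2 k ≤ m`. `ck` gives `G : Sym2 (Fin k) → Fin k × Fin k`; `pot_le` for the family
`f ↦ (X (G f).1, label (G f).1, label (k + (G f).2))`. Valuation of `κ^(k+1)` distributed over the `k + 1` brackets: each bracket `κ * br (fun j => if j < i then y j else Y i j)` has by `Good.eq`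
(the map `j ↦ if j < i then (X j, label j) else (anti (X i), label (k+j))` is injective: look at the labels) valuation `w (fun j => if j < i then X j else anti (X i))`, which is
`≤ w X + ∑ j, D (X j) (if j < i then X j else anti (X i)) ≤ w X + (k - i) Δ` (`lip_sum`, `D x x = 0`, `D (X j) (anti (X i)) = Δ - D (X j) (X i) ≤ Δ`); the last one has valuation `w X`.
Sum: `(k + 1) w X + Δ ∑_(i<k) (k - i) = (k + 1) w X + k (k + 1) / 2 * Δ`.
-/

set_option autoImplicit false

namespace Pool.Agent.KServer.SY

open Finset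

private theorem upp_card {n : ℕ} (i : Fin (n + 1)) (Δ : ℝ) :
    ∑ j : Fin (n + 1), (if j < i then (0 : ℝ) else Δ) = ((n : ℝ) + 1 - (i : ℕ)) * Δ := by
  rw [Finset.sum_ite, Finset.sum_const_zero, zero_add, Finset.sum_const, nsmul_eq_mul]
  have h1 : (Finset.univ.filter fun j : Fin (n + 1) => ¬ j < i) = Finset.Ici i := by
    ext j
    simp
  rw [h1, Fin.card_Ici, Nat.cast_sub (by omega)]
  push_cast
  ring

private theorem upp_tri (n : ℕ) :
    ∑ i : Fin (n + 1), ((n : ℝ) + 1 - (i : ℕ)) = ((n : ℝ) + 1) * ((n : ℝ) + 2) / 2 := by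
  rw [Fin.sum_univ_eq_sum_range (fun i : ℕ => (n : ℝ) + 1 - (i : ℝ)) (n + 1),
    Finset.sum_sub_distrib, Finset.sum_const, Finset.card_range, nsmul_eq_mul]
  have h : ∀ m : ℕ, ∑ i ∈ Finset.range (m + 1), (i : ℝ) = (m : ℝ) * ((m : ℝ) + 1) / 2 := by
    intro m
    induction m with
    | zero => simp
    | succ m ih =>
      rw [Finset.sum_range_succ, ih]
      push_cast
      ring
  rw [h]
  push_cast
  ring

private theorem upp_w {V : Type} {n : ℕ} {D : V → V → ℝ} {anti : V → V} {Δ : ℝ} (hD : Metr D)
    (ha : ∀ x y, D x (anti y) = Δ - D x y) {w : (Fin (n + 1) → V) → ℝ} (hw : QWF D w)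
    (X : Fin (n + 1) → V) (i : Fin (n + 1)) :
    w (fun j => if j < i then X j else anti (X i)) ≤ w X + ((n : ℝ) + 1 - (i : ℕ)) * Δ := by
  refine (lip_sum hw X _).trans ?_
  rw [← upp_card i Δ]
  refine add_le_add le_rfl (Finset.sum_le_sum fun j _ => ?_)
  split_ifs with hj
  · exact (hD.self (X j)).le
  · rw [ha]
    linarith [hD.nonneg (X j) (X i)]

theorem pot_upper {K : Type} [Field K] [Algebra ℚ K] (F : VF K) {V : Type} [Fintype V] {n m : ℕ}
    (hm : 2 * (n + 1) ≤ m) {D : V → V → ℝ} {anti : V → V} {Δ : ℝ} (hD : Metr D)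
    (ha : ∀ x y, D x (anti y) = Δ - D x y) {w : (Fin (n + 1) → V) → ℝ} (hw : QWF D w)
    {vec : V × Fin m → Fin (n + 1) → K} {κ : K} (h : Good F w vec κ) (X : Fin (n + 1) → V) :
    pot F anti vec κ ≤
      ((((n : ℝ) + 2) * w X + ((n : ℝ) + 1) * ((n : ℝ) + 2) / 2 * Δ : ℝ) : WithTop ℝ) := by
  classical
  have hv2 : F.v 2 = 0 := by
    have h1 := F.hq 2 two_ne_zero
    rwa [map_ofNat] at h1
  let a : Fin (n + 1) → Fin m := fun i => ⟨i, by omega⟩
  let b : Fin (n + 1) → Fin m := fun j => ⟨(n + 1) + j, by omega⟩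
  have hainj : Function.Injective a := by
    intro i j hij
    have : (a i : ℕ) = a j := by rw [hij]
    exact Fin.ext this
  have hbinj : Function.Injective b := by
    intro i j hij
    have : (b i : ℕ) = b j := by rw [hij]
    exact Fin.ext (by simpa [b] using this)
  have hab : ∀ i j, a i ≠ b j := by
    intro i j hij
    have : (a i : ℕ) = b j := by rw [hij]
    simp only [a, b] at this
    omega
  let y : Fin (n + 1) → Fin (n + 1) → K := fun i => vec (X i, a i)
  let Y : Fin (n + 1) → Fin (n + 1) → Fin (n + 1) → K := fun i j => vec (anti (X i), b j)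
  obtain ⟨G, hG⟩ := ck F.v hv2 (n + 1) y Y
  refine (pot_le F anti vec κ fun f => (X (G f).1, a (G f).1, b (G f).2)).trans ?_
  have h1 : F.v (κ ^ (n + 1 + 1) * sdet (fun f => y (G f).1) (fun f => Y (G f).1 (G f).2)) ≤
      (∑ i : Fin (n + 1), F.v (κ * br fun j => if j < i then y j else Y i j)) +
        F.v (κ * br y) := by
    rw [AddValuation.map_mul, AddValuation.map_pow]
    simp_rw [AddValuation.map_mul]
    rw [Finset.sum_add_distrib, Finset.sum_const, Finset.card_univ, Fintype.card_fin,
      add_add_add_comm, ← succ_nsmul]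
    exact add_le_add le_rfl hG
  refine h1.trans ?_
  have h2 : ∀ i : Fin (n + 1), F.v (κ * br fun j => if j < i then y j else Y i j) =
      ((w fun j => if j < i then X j else anti (X i) : ℝ) : WithTop ℝ) := by
    intro i
    have h3 := h.eq (fun j => if j < i then (X j, a j) else (anti (X i), b j)) (by
      intro j j' hjj
      simp only at hjj
      split_ifs at hjj with c1 c2 c2
      · exact hainj (congrArg Prod.snd hjj)
      · exact absurd (congrArg Prod.snd hjj) (hab _ _)
      · exact absurd (congrArg Prod.snd hjj).symm (hab _ _)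
      · exact hbinj (congrArg Prod.snd hjj))
    have h4 : (fun j : Fin (n + 1) => vec (if j < i then (X j, a j) else (anti (X i), b j))) =
        fun j => if j < i then y j else Y i j := by
      funext j
      split_ifs <;> rfl
    have h5 : (fun j : Fin (n + 1) => (if j < i then (X j, a j) else (anti (X i), b j)).1) =
        fun j => if j < i then X j else anti (X i) := by
      funext j
      split_ifs <;> rfl
    rw [h4, h5] at h3
    exact h3
  have h6 : F.v (κ * br y) = ((w X : ℝ) : WithTop ℝ) :=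
    h.eq (fun j => (X j, a j)) (fun j j' hjj => hainj (congrArg Prod.snd hjj))
  rw [Finset.sum_congr rfl fun i _ => h2 i, h6]
  have h7 : (∑ i : Fin (n + 1),
      ((w fun j => if j < i then X j else anti (X i) : ℝ) : WithTop ℝ)) + ((w X : ℝ) : WithTop ℝ) =
      (((∑ i : Fin (n + 1), w fun j => if j < i then X j else anti (X i)) + w X : ℝ) :
        WithTop ℝ) := by
    rw [WithTop.coe_add, WithTop.coe_sum]
  rw [h7, WithTop.coe_le_coe]
  have h8 : ∑ i : Fin (n + 1), w (fun j => if j < i then X j else anti (X i)) ≤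
      ∑ i : Fin (n + 1), (w X + ((n : ℝ) + 1 - (i : ℕ)) * Δ) :=
    Finset.sum_le_sum fun i _ => upp_w hD ha hw X i
  rw [Finset.sum_add_distrib, ← Finset.sum_mul, upp_tri, Finset.sum_const, Finset.card_univ,
    Fintype.card_fin, nsmul_eq_mul] at h8
  push_cast at h8
  linarith

end Pool.Agent.KServer.SY
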