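import Pool.Agent.Work.MP_fe875b_lc.SY.VFx
import Pool.Agent.Work.MP_fe875b_lc.SY.Ini
import Pool.Agent.Work.MP_fe875b_lc.SY.Bas
import Pool.Agent.Work.MP_fe875b_lc.SY.Stp
import Pool.Agent.Work.MP_fe875b_lc.SY.Mst
import Pool.Agent.Work.MP_fe875b_lc.SY.Upp

/-!
MP_fe875b_lc, SY/Pot (size M): the potential exists for every finite antipodal space and every number of servers.

`F` from `exists_VF`, `m = 2 (n+1)`, `Fintype V` from `Finite V`. States: for the REVERSED list `l` of requests a state
`st l : {s : (V × Fin m → Fin (n+1) → K) × K // Good F (wfR D (fun _ => v) l) s.1 s.2}` (add to the subtype what is needed), `st [] ` from `init_good` with `d = D v` (`wf0_const`: `wf0 D (fun _ => v) X = ∑ i, D v (X i)`),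
`st (r :: l)` from `step_good` (`wfR D c₀ (r :: l) = upd D (wfR D c₀ l) r` by `rfl`). It is convenient to prove first, for every state, the existence of a next state with `Good` AND the inequality of `main_step`, and to define `st` by
recursion with `Classical.choose`. `Φ σ = (pot F anti (st σ.reverse)).untopD 0 - (n+1)(n+2)/2 * Δ`; `pot ≠ ⊤` by `pot_upper`.
(1) `main_step`, and `upd D w r (fun _ => anti r) = ⨅ i, (w (update (fun _ => anti r) i r) + D r (anti r)) ≥ w (update (fun _ => anti r) i₀ r) + Δ` by symmetry of `w` (`QWF.symm` with a transposition) and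
`D r (anti r) = Δ - D r r = Δ`. `(σ ++ [r]).reverse = r :: σ.reverse`, `wf D c₀ σ = wfR D c₀ σ.reverse` by definition, `qwf_wf` / QWF for `wfR`.
(2) `pot_upper`: `Φ σ ≤ (n+2) w X = ((n+1) + 1) w X`. (3) `pot_init`.
-/

set_option autoImplicit false

namespace Pool.Agent.KServer.SY

/-- a state for a work function -/
private structure St (K : Type) [Field K] [Algebra ℚ K] (F : VF K) (V : Type) (n : ℕ)
    (w : (Fin (n + 1) → V) → ℝ) where
  vec : V × Fin (2 * (n + 1)) → Fin (n + 1) → K
  κ : K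
  good : Good F w vec κ

private theorem pot_next {K : Type} [Field K] [Algebra ℚ K] (F : VF K) {V : Type} [Fintype V]
    {n : ℕ} {D : V → V → ℝ} {anti : V → V} {Δ : ℝ} (hD : Metr D)
    (hai : ∀ x, anti (anti x) = x) (ha : ∀ x y, D x (anti y) = Δ - D x y)
    {w : (Fin (n + 1) → V) → ℝ} (hw : QWF D w) (s : St K F V n w) (r : V) :
    ∃ s' : St K F V n (upd D w r),
      pot F anti s.vec s.κ + ((upd D w r fun _ => anti r : ℝ) : WithTop ℝ) ≤
        pot F anti s'.vec s'.κ + ((w fun _ => anti r : ℝ) : WithTop ℝ) := by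
  have hm : n + 1 ≤ 2 * (n + 1) := by omega
  obtain ⟨ρ, a, p, q, hρ, hp, hq, h'⟩ := step_good F hm D s.good r
  exact ⟨⟨_, _, h'⟩, main_step F hm hD hai ha hw s.good r ρ a p q hρ hp hq h'⟩

/-- the states along the reversed list of requests -/
private noncomputable def sts {K : Type} [Field K] [Algebra ℚ K] (F : VF K) {V : Type} [Fintype V]
    {n : ℕ} {D : V → V → ℝ} {anti : V → V} {Δ : ℝ} (hD : Metr D)
    (hai : ∀ x, anti (anti x) = x) (ha : ∀ x y, D x (anti y) = Δ - D x y) (v : V)
    (hw : ∀ l, QWF D (wfR D (fun _ : Fin (n + 1) => v) l))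
    (s0 : St K F V n (wfR D (fun _ : Fin (n + 1) => v) [])) :
    (l : List V) → St K F V n (wfR D (fun _ : Fin (n + 1) => v) l)
  | [] => s0
  | r :: l => (pot_next F hD hai ha (hw l) (sts F hD hai ha v hw s0 l) r).choose

private theorem upd_anti {V : Type} {n : ℕ} {D : V → V → ℝ} {anti : V → V} {Δ : ℝ} (hD : Metr D)
    (ha : ∀ x y, D x (anti y) = Δ - D x y) {w : (Fin (n + 1) → V) → ℝ} (hw : QWF D w) (r : V)
    (i₀ : Fin (n + 1)) :
    Δ + w (Function.update (fun _ => anti r) i₀ r) ≤ upd D w r fun _ => anti r := by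
  obtain ⟨i, hi⟩ := exists_upd (Nat.succ_pos n) D w r (fun _ => anti r)
  rw [hi]
  have h1 : w (Function.update (fun _ => anti r) i r) =
      w (Function.update (fun _ => anti r) i₀ r) := by
    rw [← hw.symm (Function.update (fun _ => anti r) i₀ r) (Equiv.swap i i₀)]
    congr 1
    funext j
    rw [Function.comp_apply, Function.update_apply, Function.update_apply]
    by_cases hj : j = i
    · subst hj
      rw [Equiv.swap_apply_left, if_pos rfl, if_pos rfl]
    · rw [if_neg hj]
      have h2 : Equiv.swap i i₀ j ≠ i₀ := by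
        intro h3
        apply hj
        have h4 := congrArg (Equiv.swap i i₀) h3
        rwa [Equiv.swap_apply_self, Equiv.swap_apply_right] at h4
      rw [if_neg h2]
  rw [h1, ha, hD.self]
  linarith

theorem has_pot (n : ℕ) (V : Type) [Finite V] (D : V → V → ℝ) (anti : V → V) (Δ : ℝ) (v : V)
    (hD : Metr D) (hai : ∀ x, anti (anti x) = x) (ha : ∀ x y, D x (anti y) = Δ - D x y) :
    HasPot (n + 1) ((n + 1 : ℕ) : ℝ) D anti Δ v := by
  classical
  haveI : Fintype V := Fintype.ofFinite V
  obtain ⟨K, _, _, ⟨F⟩⟩ := exists_VF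
  have hw : ∀ l, QWF D (wfR D (fun _ : Fin (n + 1) => v) l) := by
    intro l
    have h := qwf_wf (Nat.succ_pos n) hD (fun _ : Fin (n + 1) => v) l.reverse
    unfold wf at h
    rwa [List.reverse_reverse] at h
  obtain ⟨vec0, hg0, hv0⟩ := init_good F (V := V) (n + 1) (2 * (n + 1)) (D v)
  have hw0 : (wfR D (fun _ : Fin (n + 1) => v) []) = fun X => ∑ i, D v (X i) := by
    funext X
    exact wf0_const D v X
  have hg0' : Good F (wfR D (fun _ : Fin (n + 1) => v) []) vec0 1 := by
    rw [hw0]
    exact hg0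
  let st := sts F hD hai ha v hw ⟨vec0, 1, hg0'⟩
  have hm2 : 2 * (n + 1) ≤ 2 * (n + 1) := le_refl _
  have hfin : ∀ l, ∃ x : ℝ, pot F anti (st l).vec (st l).κ = (x : WithTop ℝ) := by
    intro l
    have h1 := pot_upper F hm2 hD ha (hw l) (st l).good (fun _ => v)
    have h2 : pot F anti (st l).vec (st l).κ ≠ ⊤ := ne_top_of_le_ne_top WithTop.coe_ne_top h1
    exact ⟨_, (WithTop.coe_untop _ h2).symm⟩
  choose f hf using hfin
  refine ⟨fun σ => f σ.reverse - ((n : ℝ) + 1) * ((n : ℝ) + 2) / 2 * Δ, ?_, ?_, ?_⟩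
  · intro σ r i₀
    have h1 := (pot_next F hD hai ha (hw σ.reverse) (st σ.reverse) r).choose_spec
    have h2 : pot F anti (st (r :: σ.reverse)).vec (st (r :: σ.reverse)).κ =
        pot F anti (pot_next F hD hai ha (hw σ.reverse) (st σ.reverse) r).choose.vec
          (pot_next F hD hai ha (hw σ.reverse) (st σ.reverse) r).choose.κ := rfl
    rw [← h2, hf, hf, ← WithTop.coe_add, ← WithTop.coe_add, WithTop.coe_le_coe] at h1
    have h3 := upd_anti hD ha (hw σ.reverse) r i₀
    have h4 : (σ ++ [r]).reverse = r :: σ.reverse := by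
      rw [List.reverse_append]
      rfl
    show Δ + wfR D _ σ.reverse _ - wfR D _ σ.reverse _ ≤ _
    beta_reduce
    rw [h4]
    linarith
  · intro σ X
    have h1 := pot_upper F hm2 hD ha (hw σ.reverse) (st σ.reverse).good X
    rw [hf, WithTop.coe_le_coe] at h1
    show f σ.reverse - _ ≤ (((n + 1 : ℕ) : ℝ) + 1) * wfR D _ σ.reverse X
    push_cast
    have h2 : ((n : ℝ) + 1 + 1) = (n : ℝ) + 2 := by ring
    rw [h2]
    linarith
  · have h1 := pot_init F (k := n + 1) (m := 2 * (n + 1)) (D v) anti Δ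
      (fun x => by rw [ha]; ring) vec0 hv0
    have h2 : pot F anti vec0 1 = ((f [] : ℝ) : WithTop ℝ) := hf []
    rw [h2, WithTop.coe_le_coe] at h1
    show 0 ≤ f ([] : List V).reverse - _
    rw [List.reverse_nil]
    push_cast at h1
    have h3 : ((n : ℝ) + 1) * ((n : ℝ) + 1 + 1) / 2 * Δ = ((n : ℝ) + 1) * ((n : ℝ) + 2) / 2 * Δ := by
      ring
    linarith

end Pool.Agent.KServer.SY
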