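import Pool.Agent.Work.MP_fe875b_lc.SY.PotC

/-!
MP_fe875b_lc, SY/RedC: from the potentials on finite antipodal spaces (arbitrary start) to the work function algorithm itself on
every space with a symmetric pseudo-metric: every run of the work function algorithm, with any tie-breaking, costs at most `k` times
every schedule serving the same requests plus half the sum of all distances inside the start configuration.
-/

set_option autoImplicit false

namespace Pool.Agent.KServer

open Finset

theorem wf_comap {M N : Type*} {k : ℕ} (D : N → N → ℝ) (f : M → N) (c₀ : Fin k → M) (σ : List M)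
    (X : Fin k → M) :
    wf (fun x y => D (f x) (f y)) c₀ σ X =
      wf D (fun i => f (c₀ i)) (σ.map f) (fun i => f (X i)) := by
  classical
  unfold wf
  rw [← List.map_reverse]
  generalize σ.reverse = l
  induction l generalizing X with
  | nil => rfl
  | cons r l ih =>
    change upd (fun x y => D (f x) (f y)) (wfR (fun x y => D (f x) (f y)) c₀ l) r X =
      upd D (wfR D (fun i => f (c₀ i)) (l.map f)) (f r) (fun i => f (X i))
    unfold upd
    congr 1
    funext i
    have e : Function.update (fun j => f (X j)) i (f r) =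
        fun j => f (Function.update X i r j) := by
      funext j
      simp only [Function.update_apply]
      split_ifs <;> rfl
    rw [e, ih]

/-- potentials for the extended costs inside a finite set of points -/
theorem fin_pot {M : Type} {k : ℕ} (hk : 0 < k) {D : M → M → ℝ} (hD : Metr D) (c₀ : Fin k → M)
    (F : Finset M) (hc : ∀ i, c₀ i ∈ F) :
    ∃ Ψ : List M → ℝ,
      (∀ (σ : List M) (r : M) (X : Fin k → M), (∀ x ∈ σ, x ∈ F) → r ∈ F → (∀ i, X i ∈ F) →
        wf D c₀ (σ ++ [r]) X - wf D c₀ σ X ≤ Ψ (σ ++ [r]) - Ψ σ) ∧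
      (∀ (σ : List M) (X : Fin k → M), (∀ x ∈ σ, x ∈ F) → (∀ i, X i ∈ F) →
        Ψ σ ≤ ((k : ℝ) + 1) * wf D c₀ σ X) ∧
      -((∑ i, ∑ j, D (c₀ i) (c₀ j)) / 2) ≤ Ψ [] := by
  classical
  obtain ⟨n, rfl⟩ : ∃ n, k = n + 1 := ⟨k - 1, by omega⟩
  let V : Type := {x : M // x ∈ F}
  have : Fintype V := Fintype.ofFinite V
  let g : M → V := fun x => if h : x ∈ F then ⟨x, h⟩ else ⟨c₀ ⟨0, hk⟩, hc _⟩
  have hg : ∀ x, x ∈ F → (g x).1 = x := by
    intro x hx
    show (if h : x ∈ F then (⟨x, h⟩ : V) else ⟨c₀ ⟨0, hk⟩, hc _⟩).1 = x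
    rw [dif_pos hx]
  let DV : V → V → ℝ := fun x y => D x.1 y.1
  have hM : Metr DV := ⟨⟨fun x => hD.self _, fun x y => hD.nonneg _ _, fun x y z => hD.tri _ _ _⟩,
    fun x y => hD.comm _ _⟩
  have hB : ∀ x y, DV x y ≤ ∑ x, ∑ y, DV x y := by
    intro x y
    calc DV x y ≤ ∑ y, DV x y :=
          single_le_sum (f := fun y => DV x y) (fun z _ => hM.nonneg x z) (mem_univ y)
      _ ≤ ∑ x, ∑ y, DV x y :=
          single_le_sum (f := fun x => ∑ y, DV x y)
            (fun z _ => sum_nonneg fun w _ => hM.nonneg z w) (mem_univ x)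
  generalize ∑ x, ∑ y, DV x y = B at hB
  have hm := metr_antiD hM hB (le_refl (2 * B))
  obtain ⟨Φ, h1, h2, h0⟩ := SY.has_potC n (V ⊕ V) (antiD DV (2 * B)) Sum.swap (2 * B)
    (fun i => Sum.inl (g (c₀ i))) hm (fun x => Sum.swap_swap x) (antiD_swap _ _)
  have hwf : ∀ (σ : List M) (X : Fin (n + 1) → M), (∀ x ∈ σ, x ∈ F) → (∀ i, X i ∈ F) →
      wf (antiD DV (2 * B)) (fun i => Sum.inl (g (c₀ i))) ((σ.map g).map Sum.inl)
        (fun i => Sum.inl (g (X i))) = wf D c₀ σ X := by
    intro σ X hσ hX
    rw [wf_antiD DV (2 * B) (fun i => g (c₀ i)) (σ.map g) (fun i => g (X i))]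
    have h3 := wf_comap D (fun x : V => x.1) (fun i => g (c₀ i)) (σ.map g) (fun i => g (X i))
    have h4 : (σ.map g).map (fun x : V => x.1) = σ := by
      rw [List.map_map]
      conv_rhs => rw [← List.map_id σ]
      exact List.map_congr_left fun x hx => hg x (hσ x hx)
    have h5 : (fun i => (g (c₀ i)).1) = c₀ := funext fun i => hg _ (hc i)
    have h6 : (fun i => (g (X i)).1) = X := funext fun i => hg _ (hX i)
    rw [h4, h5, h6] at h3
    exact h3
  refine ⟨fun σ => Φ ((σ.map g).map Sum.inl), ?_, ?_, ?_⟩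
  · intro σ r X hσ hr hX
    have h3 := h1 ((σ.map g).map Sum.inl) (Sum.inl (g r)) ⟨0, hk⟩
    have h4 := upd_sub_le hm (antiD_swap DV (2 * B))
      (qwf_wf hk hm (fun i => Sum.inl (g (c₀ i))) ((σ.map g).map Sum.inl)) (Sum.inl (g r)) ⟨0, hk⟩
      (fun i => Sum.inl (g (X i)))
    have h5 : ((σ ++ [r]).map g).map (Sum.inl : V → V ⊕ V) =
        (σ.map g).map Sum.inl ++ [Sum.inl (g r)] := by simp
    have h6 := wf_append (antiD DV (2 * B)) (fun i => (Sum.inl (g (c₀ i)) : V ⊕ V))
      ((σ.map g).map Sum.inl) (Sum.inl (g r))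
    have h7 : ∀ x ∈ σ ++ [r], x ∈ F := by
      intro x hx
      rcases List.mem_append.1 hx with hx | hx
      · exact hσ x hx
      · rw [List.mem_singleton] at hx
        rw [hx]
        exact hr
    rw [← h6, ← h5, hwf _ _ h7 hX, hwf _ _ hσ hX] at h4
    show _ ≤ Φ (((σ ++ [r]).map g).map Sum.inl) - Φ ((σ.map g).map Sum.inl)
    rw [h5]
    linarith
  · intro σ X hσ hX
    have h3 := h2 ((σ.map g).map Sum.inl) (fun i => Sum.inl (g (X i)))
    rw [hwf _ _ hσ hX] at h3
    exact h3
  · have h3 : (∑ i, ∑ j, antiD DV (2 * B) (Sum.inl (g (c₀ i))) (Sum.inl (g (c₀ j)))) =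
        ∑ i, ∑ j, D (c₀ i) (c₀ j) := by
      refine sum_congr rfl fun i _ => sum_congr rfl fun j _ => ?_
      show D (g (c₀ i)).1 (g (c₀ j)).1 = D (c₀ i) (c₀ j)
      rw [hg _ (hc i), hg _ (hc j)]
    rw [h3] at h0
    exact h0

/-- a run `S` of the work function algorithm on the request sequence `σ`, any tie-breaking -/
def IsWfaRun {M : Type*} {k : ℕ} (D : M → M → ℝ) (c₀ : Fin k → M) (σ : List M)
    (S : ℕ → Fin k → M) : Prop :=
  S 0 = c₀ ∧ ∀ j : Fin σ.length, ∃ i : Fin k,
    S (j.val + 1) = Function.update (S j.val) i (σ.get j) ∧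
    ∀ i' : Fin k, wf D c₀ (σ.take (j.val + 1)) (Function.update (S j.val) i (σ.get j))
        + D (S j.val i) (σ.get j) ≤
      wf D c₀ (σ.take (j.val + 1)) (Function.update (S j.val) i' (σ.get j))
        + D (S j.val i') (σ.get j)

theorem wfa_run_le {M : Type} {k : ℕ} (hk : 0 < k) {D : M → M → ℝ} (hD : Metr D) (c₀ : Fin k → M)
    (σ : List M) (S : ℕ → Fin k → M) (hS : IsWfaRun D c₀ σ S) (A : ℕ → Fin k → M)
    (hA : Serves c₀ σ A) :
    schedCost D S σ.length ≤ (k : ℝ) * schedCost D A σ.length +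
      (∑ i, ∑ j, D (c₀ i) (c₀ j)) / 2 := by
  classical
  -- the finite set of points
  let F : Finset M := (univ.image c₀) ∪ σ.toFinset ∪ (univ.image (A σ.length))
  have hcF : ∀ i, c₀ i ∈ F := fun i =>
    mem_union_left _ (mem_union_left _ (mem_image_of_mem _ (mem_univ i)))
  have hσF : ∀ x ∈ σ, x ∈ F := fun x hx =>
    mem_union_left _ (mem_union_right _ (List.mem_toFinset.2 hx))
  have hAF : ∀ i, A σ.length i ∈ F := fun i =>
    mem_union_right _ (mem_image_of_mem _ (mem_univ i))
  have hSF : ∀ j ≤ σ.length, ∀ i, S j i ∈ F := by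
    intro j
    induction j with
    | zero =>
      intro _ i
      rw [hS.1]
      exact hcF i
    | succ j ih =>
      intro hj i
      obtain ⟨i', hi', -⟩ := hS.2 ⟨j, hj⟩
      have hi'' : S (j + 1) = Function.update (S j) i' (σ.get ⟨j, hj⟩) := hi'
      rw [hi'', Function.update_apply]
      split_ifs
      · exact hσF _ (List.get_mem _ _)
      · exact ih (Nat.le_of_succ_le hj) i
  obtain ⟨Ψ, h1, h2, h0⟩ := fin_pot hk hD c₀ F hcF
  have key : ∀ n ≤ σ.length,
      schedCost D S n + wf D c₀ (σ.take n) (S n) ≤ Ψ (σ.take n) - Ψ [] := by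
    intro n
    induction n with
    | zero =>
      intro _
      rw [hS.1, List.take_zero, wf_nil, wf0_self hD]
      unfold schedCost
      simp
    | succ n ih =>
      intro hn
      have ih' := ih (Nat.le_of_succ_le hn)
      obtain ⟨i, hi, hmin⟩ := hS.2 ⟨n, hn⟩
      have hi2 : S (n + 1) = Function.update (S n) i (σ.get ⟨n, hn⟩) := hi
      have hmin2 : ∀ i' : Fin k,
          wf D c₀ (σ.take (n + 1)) (Function.update (S n) i (σ.get ⟨n, hn⟩))
            + D (S n i) (σ.get ⟨n, hn⟩) ≤
          wf D c₀ (σ.take (n + 1)) (Function.update (S n) i' (σ.get ⟨n, hn⟩))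
            + D (S n i') (σ.get ⟨n, hn⟩) := hmin
      have htake : σ.take (n + 1) = σ.take n ++ [σ.get ⟨n, hn⟩] := by
        rw [List.take_succ_eq_append_getElem hn]
        rfl
      generalize σ.get ⟨n, hn⟩ = r at *
      have hq := qwf_wf hk hD c₀ (σ.take n)
      have hmem : ∀ i', wf D c₀ (σ.take (n + 1)) (Function.update (S n) i' r) =
          wf D c₀ (σ.take n) (Function.update (S n) i' r) := by
        intro i'
        rw [htake, wf_append]
        exact upd_of_mem hk hD hq (i := i') (Function.update_self _ _ _)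
      obtain ⟨i₁, hi₁⟩ := exists_upd hk D (wf D c₀ (σ.take n)) r (S n)
      have h3 := hmin2 i₁
      rw [hmem, hmem] at h3
      have hrF : r ∈ F := by
        have h4 := hSF (n + 1) hn i
        rw [hi2, Function.update_self] at h4
        exact h4
      have h5 := h1 (σ.take n) r (S n) (fun x hx => hσF x (List.mem_of_mem_take hx)) hrF
        (hSF n (Nat.le_of_succ_le hn))
      rw [wf_append, hi₁, ← htake] at h5
      have hcost : schedCost D S (n + 1) = schedCost D S n + D r (S n i) := by
        unfold schedCost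
        rw [sum_range_succ]
        congr 1
        rw [Finset.sum_eq_single i]
        · rw [hi2, Function.update_self, hD.comm]
        · intro j _ hj
          rw [hi2, Function.update_of_ne hj, hD.self]
        · intro h
          exact absurd (mem_univ i) h
      rw [hcost, hi2, hmem i]
      rw [hD.comm (S n i) r, hD.comm (S n i₁) r] at h3
      linarith
  have h3 := key σ.length le_rfl
  rw [List.take_length] at h3
  have h4 := wf_le_sched hk hD c₀ σ A hA
  have hk0 : (0 : ℝ) ≤ (k : ℝ) := Nat.cast_nonneg k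
  have h5 := mul_le_mul_of_nonneg_left h4 hk0
  rcases le_total (wf D c₀ σ (S σ.length)) (wf D c₀ σ (A σ.length)) with h6 | h6
  · have h7 := h2 σ (S σ.length) hσF (hSF _ le_rfl)
    have h8 := mul_le_mul_of_nonneg_left h6 hk0
    linarith
  · have h7 := h2 σ (A σ.length) hσF hAF
    linarith

end Pool.Agent.KServer
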