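import Pool.Agent.Work.MP_fe875b_lc.SY.Defs

/-!
MP_fe875b_lc, SY/VFx (size S-M): existence of the valued field.

`K = HahnSeries ℝ ℚ` (a field), `v = HahnSeries.addVal ℝ ℚ`, `τ a = HahnSeries.single a 1` (order `a`); rational constants are `HahnSeries.C c`
(`algebraMap`), of order 0 for `c ≠ 0`. If the instance `Algebra ℚ (HahnSeries ℝ ℚ)` found by Lean is the one from characteristic 0,
choose any instance in the existential (e.g. the HahnSeries algebra instance, or `DivisionRing.toRatAlgebra` with `map_ratCast`-type lemmas).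
-/

set_option autoImplicit false

namespace Pool.Agent.KServer.SY

theorem exists_VF : ∃ (K : Type) (_ : Field K) (_ : Algebra ℚ K), Nonempty (VF K) := by
  refine ⟨HahnSeries ℝ ℚ, inferInstance, inferInstance, ⟨?_⟩⟩
  refine
    { v := HahnSeries.addVal ℝ ℚ
      τ := fun a => HahnSeries.single a 1
      hτ := fun a => ?_
      hq := fun c hc => ?_ }
  · rw [HahnSeries.addVal_apply, HahnSeries.orderTop_single one_ne_zero]
  · have h1 : (algebraMap ℚ (HahnSeries ℝ ℚ)) c = HahnSeries.C c :=
      congrArg (fun g : ℚ →+* HahnSeries ℝ ℚ => g c) (Subsingleton.elim _ _)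
    rw [h1, HahnSeries.addVal_apply, HahnSeries.C_apply, HahnSeries.orderTop_single hc]
    rfl

end Pool.Agent.KServer.SY
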